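import Pool.Agent.Work.MP_27a5a0_lc.DT.Stmts

set_option autoImplicit false

/-!
Item BL: splitting one block by the balls of a list of centers.
-/

namespace Pool.Agent.UTSP.DT

open Finset Pool.Agent.UTSP

namespace IBL

theorem eps_nonneg (q : ℕ) {Δ r : ℝ} (hΔ : 0 < Δ) (hr : 0 ≤ r) : 0 ≤ eps q Δ r := by
  unfold eps
  positivity

theorem eps_le (q : ℕ) {Δ r : ℝ} (hΔ : 0 < Δ) (hq : 1 ≤ q) (hr : r ≤ Δ / (32768 * q)) :
    eps q Δ r ≤ 3 / 64 := by
  unfold eps
  have hq' : (0 : ℝ) < q := by exact_mod_cast hq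
  rw [div_le_iff₀ hΔ]
  have h1 : r * (32768 * (q : ℝ)) ≤ Δ := by
    rwa [le_div_iff₀ (by positivity)] at hr
  nlinarith

theorem r_small (q : ℕ) {Δ r : ℝ} (hΔ : 0 < Δ) (hq : 1 ≤ q) (hr : r ≤ Δ / (32768 * q)) :
    r < Δ / 2 := by
  have hq' : (1 : ℝ) ≤ q := by exact_mod_cast hq
  refine lt_of_le_of_lt hr ?_
  rw [div_lt_div_iff₀ (by positivity) (by norm_num)]
  nlinarith

/-- the weight attached to the window -/
noncomputable def ff (e : ℝ) (N n : ℕ) : ℝ := (1 + e / 2) * (1 + e / (4 * N)) ^ n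

theorem one_le_pow' {e : ℝ} (he : 0 ≤ e) (N n : ℕ) : 1 ≤ (1 + e / (4 * (N : ℝ))) ^ n := by
  apply one_le_pow₀
  have : 0 ≤ e / (4 * (N : ℝ)) := by positivity
  linarith

theorem one_le_ff {e : ℝ} (he : 0 ≤ e) (N n : ℕ) : 1 ≤ ff e N n := by
  unfold ff
  have h1 : 1 ≤ 1 + e / 2 := by linarith
  have h2 := one_le_pow' he N n
  nlinarith

theorem half_le_ff {e : ℝ} (he : 0 ≤ e) (N n : ℕ) : 1 + e / 2 ≤ ff e N n := by
  unfold ff
  have h1 : 1 ≤ 1 + e / 2 := by linarith
  have h2 := one_le_pow' he N n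
  nlinarith

theorem ff_succ (e : ℝ) (N n : ℕ) : ff e N (n + 1) = ff e N n * (1 + e / (4 * N)) := by
  unfold ff
  ring

theorem nc_cons_pos {X : Type} (δ : X → X → ℝ) (Δ : ℝ) (z : X) (cs : List X) (y : X)
    (h : δ z y ≤ Δ) : nc δ Δ (z :: cs) y = nc δ Δ cs y + 1 := by
  classical
  unfold nc
  rw [List.countP_cons_of_pos]
  simpa using h

theorem nc_cons_neg {X : Type} (δ : X → X → ℝ) (Δ : ℝ) (z : X) (cs : List X) (y : X)
    (h : ¬ δ z y ≤ Δ) : nc δ Δ (z :: cs) y = nc δ Δ cs y := by
  classical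
  unfold nc
  rw [List.countP_cons_of_neg]
  simpa using h

theorem spl_of_ne {X : Type} (δ : X → X → ℝ) (P : X → ℕ) (β : ℕ) (z : X) (x : ℝ) (M : ℕ) (t : X)
    (h : P t ≠ β) : spl δ P β z x M t = P t := by
  unfold spl
  rw [if_neg]
  exact fun h' => h h'.1

theorem spl_of_far {X : Type} (δ : X → X → ℝ) (P : X → ℕ) (β : ℕ) (z : X) (x : ℝ) (M : ℕ) (t : X)
    (h : ¬ δ z t ≤ x) : spl δ P β z x M t = P t := by
  unfold spl
  rw [if_neg]
  exact fun h' => h h'.2

theorem spl_of_mem {X : Type} (δ : X → X → ℝ) (P : X → ℕ) (β : ℕ) (z : X) (x : ℝ) (M : ℕ) (t : X)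
    (h : P t = β) (h' : δ z t ≤ x) : spl δ P β z x M t = M := by
  unfold spl
  rw [if_pos ⟨h, h'⟩]

/-- The pointwise comparison inside `J`. -/
theorem inside {φ θ A : ℝ} {n n1 k : ℕ} (hφ : 0 ≤ φ) (hθ : 1 ≤ θ)
    (hn : n1 ≤ n + k) {B : ℝ} (hB : B ≤ A) (hB0 : 0 ≤ B) :
    φ * θ ^ n1 * B ≤ φ * θ ^ n * A + φ * θ ^ n * A * (θ ^ k - 1) := by
  have h1 : θ ^ n1 ≤ θ ^ (n + k) := pow_le_pow_right₀ hθ hn
  rw [pow_add] at h1
  have h2 : 0 ≤ θ ^ n1 := by positivity
  calc φ * θ ^ n1 * B ≤ φ * (θ ^ n * θ ^ k) * A := by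
        apply mul_le_mul (mul_le_mul_of_nonneg_left h1 hφ) hB hB0
        positivity
    _ = _ := by ring

theorem inside2 {φ θ e A : ℝ} {n n1 k : ℕ} (hφ : 0 ≤ φ) (hθ : 1 ≤ θ) (he0 : 0 ≤ e)
    (he1 : e ≤ 3 / 64) (hA : 1 + e / 2 ≤ A) (hn : n1 ≤ n) :
    φ * θ ^ n1 * 1 ≤ φ * θ ^ n * A + φ * θ ^ n * A * (θ ^ k - 1) - φ * θ ^ n * A * e / 4 := by
  have h1 : θ ^ n1 ≤ θ ^ n := pow_le_pow_right₀ hθ hn
  have h3 : 1 ≤ θ ^ k := one_le_pow₀ hθ
  have h4 : 0 ≤ φ * θ ^ n := by positivity
  have h5 : φ * θ ^ n1 ≤ φ * θ ^ n := mul_le_mul_of_nonneg_left h1 hφ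
  have h6 : 1 ≤ A * (1 - e / 4) := by nlinarith
  have h7 : 0 ≤ φ * θ ^ n * A * (θ ^ k - 1) :=
    mul_nonneg (mul_nonneg h4 (by linarith)) (by linarith)
  have h8 : φ * θ ^ n ≤ φ * θ ^ n * (A * (1 - e / 4)) := le_mul_of_one_le_right h4 h6
  have h9 : φ * θ ^ n * (A * (1 - e / 4)) = φ * θ ^ n * A - φ * θ ^ n * A * e / 4 := by ring
  rw [mul_one]
  linarith

end IBL

open IBL in
theorem pr_BL (hSL : S_SL) (hSPL : S_SPL) : S_BL := by
  classical
  intro X _ δ hδ W _ y r θ φ c Δ N q hΔ hq hN hNq hOK hφ cs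
  have he0 : ∀ w, 0 ≤ eps q Δ (r w) := fun w => eps_nonneg q hΔ (hOK w).2.2.1
  have he1 : ∀ w, eps q Δ (r w) ≤ 3 / 64 := fun w => eps_le q hΔ hq (hOK w).2.2.2.2
  induction cs with
  | nil =>
    intro P β hP
    refine ⟨P, fun x _ => rfl, fun x x' h => h, fun x x' h => ?_, ?_⟩
    · obtain ⟨z, hz, -⟩ := hP x h
      simp at hz
    · apply Finset.sum_le_sum
      intro w _
      apply le_mul_of_one_le_right
      · have := hφ w
        have := (hOK w).1
        positivity
      · split_ifs with h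
        · exact one_le_ff (he0 w) N _
        · exact le_rfl
  | cons z cs ih =>
    intro P β hP
    -- the windows concerned
    set Co : W → Prop := fun w => β ∈ bl δ P (y w) (r w) ∧ δ z (y w) ≤ Δ with hCo
    set G : W → ℝ := fun w => φ w * θ w ^ ee δ P (y w) (r w) (c w) *
      ff (eps q Δ (r w)) N (nc δ Δ cs (y w)) with hG
    have hG0 : ∀ w, 0 ≤ G w := by
      intro w
      have h1 := hφ w
      have h2 := (hOK w).1
      have h3 := one_le_ff (he0 w) N (nc δ Δ cs (y w))
      rw [hG]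
      positivity
    obtain ⟨x, hx1, hx2, hx3⟩ := hSL {w // Co w} (fun j => δ z (y j.1)) (fun j => r j.1)
      (fun j => θ j.1) (fun j => G j.1) (fun j => c j.1) Δ N q hΔ hq hN hNq
      (fun j => hOK j.1) (fun j => hG0 j.1)
    -- the new label
    obtain ⟨M, hM1, hM2⟩ : ∃ M : ℕ, (∀ t, P t ≠ M) ∧ β ≠ M := by
      refine ⟨1 + β + Finset.univ.sup P, fun t h => ?_, by omega⟩
      have h1 : P t ≤ Finset.univ.sup P := Finset.le_sup (Finset.mem_univ t)
      omega
    set P1 : X → ℕ := spl δ P β z x M with hP1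
    have hP1β : ∀ t, P1 t = β → P t = β ∧ ¬ δ z t ≤ x := by
      intro t ht
      by_cases h1 : P t = β
      · refine ⟨h1, fun h2 => ?_⟩
        rw [hP1, spl_of_mem δ P β z x M t h1 h2] at ht
        exact hM2 ht.symm
      · rw [hP1, spl_of_ne δ P β z x M t h1] at ht
        exact absurd ht h1
    have hP1M : ∀ t, P1 t = M → P t = β ∧ δ z t ≤ x := by
      intro t ht
      by_cases h1 : P t = β
      · by_cases h2 : δ z t ≤ x
        · exact ⟨h1, h2⟩
        · rw [hP1, spl_of_far δ P β z x M t h2] at ht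
          exact absurd ht (hM1 t)
      · rw [hP1, spl_of_ne δ P β z x M t h1] at ht
        exact absurd ht (hM1 t)
    have hP1n : ∀ t, P1 t ≠ M → P1 t = P t := by
      intro t ht
      by_cases h1 : P t = β
      · by_cases h2 : δ z t ≤ x
        · exact absurd (spl_of_mem δ P β z x M t h1 h2) ht
        · exact spl_of_far δ P β z x M t h2
      · exact spl_of_ne δ P β z x M t h1
    obtain ⟨P', hP'1, hP'2, hP'3, hP'4⟩ := ih P1 β (by
      intro t ht
      obtain ⟨h1, h2⟩ := hP1β t ht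
      obtain ⟨s, hs, hs'⟩ := hP t h1
      rcases List.mem_cons.1 hs with rfl | hs
      · exact absurd (hs'.trans hx1) h2
      · exact ⟨s, hs, hs'⟩)
    refine ⟨P', ?_, ?_, ?_, ?_⟩
    · intro t ht
      have h1 : P1 t = P t := spl_of_ne δ P β z x M t ht
      rw [hP'1 t (by rw [h1]; exact ht), h1]
    · intro t t' h
      have h1 := hP'2 t t' h
      by_cases h2 : P1 t = M
      · rw [(hP1M t h2).1, (hP1M t' (h1 ▸ h2)).1]
      · rw [← hP1n t h2, ← hP1n t' (h1 ▸ h2), h1]
    · intro t t' ht h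
      by_cases h2 : P1 t = M
      · have h1 := hP'2 t t' h
        have h3 := (hP1M t h2).2
        have h4 := (hP1M t' (h1 ▸ h2)).2
        have h5 := hδ.tri t z t'
        rw [hδ.symm t z] at h5
        linarith
      · exact hP'3 t t' (by rw [hP1n t h2]; exact ht) h
    · refine hP'4.trans ?_
      -- compare the two weighted sums
      set new : W → ℝ := fun w => φ w * θ w ^ ee δ P1 (y w) (r w) (c w) *
        (if β ∈ bl δ P1 (y w) (r w) then
          (1 + eps q Δ (r w) / 2) * (1 + eps q Δ (r w) / (4 * N)) ^ nc δ Δ cs (y w) else 1)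
        with hnew
      set old : W → ℝ := fun w => φ w * θ w ^ ee δ P (y w) (r w) (c w) *
        (if β ∈ bl δ P (y w) (r w) then
          (1 + eps q Δ (r w) / 2) * (1 + eps q Δ (r w) / (4 * N)) ^ nc δ Δ (z :: cs) (y w)
          else 1) with hold
      have hout : ∀ w, ¬ Co w → new w ≤ old w := by
        intro w hw
        have h0 := hOK w
        obtain ⟨s1, s2, s3, s4⟩ := hSPL X δ hδ P β M z (y w) x (r w) (c w) h0.2.2.1 hM1 hM2
        have hee : ee δ P1 (y w) (r w) (c w) ≤ ee δ P (y w) (r w) (c w) := by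
          apply s2
          by_cases hb : β ∈ bl δ P (y w) (r w)
          · right
            have h1 : ¬ δ z (y w) ≤ Δ := fun h => hw ⟨hb, h⟩
            have h2 := r_small q hΔ hq h0.2.2.2.2
            push Not at h1
            linarith
          · exact Or.inl hb
        have h1 : φ w * θ w ^ ee δ P1 (y w) (r w) (c w) ≤
            φ w * θ w ^ ee δ P (y w) (r w) (c w) :=
          mul_le_mul_of_nonneg_left (pow_le_pow_right₀ h0.1 hee) (hφ w)
        have hpos : 0 ≤ φ w * θ w ^ ee δ P (y w) (r w) (c w) := by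
          have := hφ w
          have := h0.1
          positivity
        have hf := one_le_ff (he0 w) N (nc δ Δ cs (y w))
        by_cases hb : β ∈ bl δ P (y w) (r w)
        · have h2 : ¬ δ z (y w) ≤ Δ := fun h => hw ⟨hb, h⟩
          have h3 : old w = φ w * θ w ^ ee δ P (y w) (r w) (c w) *
              ff (eps q Δ (r w)) N (nc δ Δ cs (y w)) := by
            rw [hold]
            simp only
            rw [if_pos hb, nc_cons_neg δ Δ z cs (y w) h2]
            rfl
          rw [h3, hnew]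
          simp only
          refine mul_le_mul h1 ?_ ?_ hpos
          · split_ifs
            · exact le_rfl
            · exact hf
          · split_ifs
            · exact zero_le_one.trans hf
            · exact zero_le_one
        · rw [hnew, hold]
          simp only
          rw [if_neg hb, if_neg (s4 hb), mul_one, mul_one]
          exact h1
      have hin : ∀ w, Co w → new w ≤ G w + G w * (θ w ^ nr (r w) (c w) (x - δ z (y w)) - 1) -
          (if δ z (y w) ≤ x - r w then G w * eps q Δ (r w) / 4 else 0) := by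
        intro w hw
        have h0 := hOK w
        obtain ⟨s1, s2, s3, s4⟩ := hSPL X δ hδ P β M z (y w) x (r w) (c w) h0.2.2.1 hM1 hM2
        by_cases hb : δ z (y w) ≤ x - r w
        · rw [if_pos hb]
          obtain ⟨t1, t2⟩ := s3 (by linarith)
          rw [hnew]
          simp only
          rw [if_neg t2]
          exact inside2 (hφ w) h0.1 (he0 w) (he1 w) (half_le_ff (he0 w) N _) t1
        · rw [if_neg hb, sub_zero, hnew]
          simp only
          have hf := one_le_ff (he0 w) N (nc δ Δ cs (y w))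
          refine inside (hφ w) h0.1 s1 ?_ ?_
          · split_ifs
            · exact le_rfl
            · exact hf
          · split_ifs
            · exact zero_le_one.trans hf
            · exact zero_le_one
      have hold2 : ∀ w, Co w → old w = G w + G w * eps q Δ (r w) / 4 / N := by
        intro w hw
        rw [hold]
        simp only
        rw [if_pos hw.1, nc_cons_pos δ Δ z cs (y w) hw.2]
        have hN' : (N : ℝ) ≠ 0 := by
          have : (0 : ℝ) < N := by exact_mod_cast hN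
          exact this.ne'
        rw [hG]
        simp only
        unfold ff
        rw [pow_succ]
        generalize (1 + eps q Δ (r w) / (4 * (N : ℝ))) ^ nc δ Δ cs (y w) = Y
        field_simp
      rw [← Finset.sum_filter_add_sum_filter_not Finset.univ Co new,
        ← Finset.sum_filter_add_sum_filter_not Finset.univ Co old]
      refine add_le_add ?_ ?_
      · have e1 : ∀ f : W → ℝ, ∑ w ∈ Finset.univ.filter Co, f w = ∑ j : {w // Co w}, f j.1 :=
          fun f => Finset.sum_subtype _ (by simp) f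
        rw [e1, e1]
        have h1 : ∑ j : {w // Co w}, new j.1 ≤ ∑ j : {w // Co w}, (G j.1 +
            G j.1 * (θ j.1 ^ nr (r j.1) (c j.1) (x - δ z (y j.1)) - 1) -
            (if δ z (y j.1) ≤ x - r j.1 then G j.1 * eps q Δ (r j.1) / 4 else 0)) :=
          Finset.sum_le_sum fun j _ => hin j.1 j.2
        have h2 : ∑ j : {w // Co w}, old j.1 = ∑ j : {w // Co w}, (G j.1 +
            G j.1 * eps q Δ (r j.1) / 4 / N) :=
          Finset.sum_congr rfl fun j _ => hold2 j.1 j.2
        rw [h2]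
        refine h1.trans ?_
        rw [Finset.sum_sub_distrib, Finset.sum_add_distrib, Finset.sum_add_distrib,
          ← Finset.sum_div]
        rw [Finset.sum_filter] at hx3
        linarith
      · exact Finset.sum_le_sum fun w hw => hout w (Finset.mem_filter.1 hw).2

end Pool.Agent.UTSP.DT
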