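import Pool.Agent.Work.MP_27a5a0_lc.DT.Stmts

/-!
MP_27a5a0_lc, block DT, item CT: the counting lemma.
-/

set_option autoImplicit false

namespace Pool.Agent.UTSP.DT

open Finset Pool.Agent.UTSP

namespace ICT

open Classical in
/-- The power minus one as a sum over the radii. -/
theorem pow_nr (θ r x : ℝ) (hr : 0 ≤ r) (c : ℕ) :
    θ ^ nr r c x - 1 = ∑ s ∈ range c, if |x| ≤ r / 2 ^ s then θ ^ s * (θ - 1) else 0 := by
  induction c with
  | zero => simp [nr]
  | succ c ih =>
    rw [Finset.sum_range_succ, ← ih]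
    by_cases hx : |x| ≤ r / 2 ^ c
    · have hall : ∀ s ∈ range c, |x| ≤ r / 2 ^ s := by
        intro s hs
        have hs' : s ≤ c := (Finset.mem_range.mp hs).le
        have h2 : (2 : ℝ) ^ s ≤ 2 ^ c := pow_le_pow_right₀ (by norm_num) hs'
        exact hx.trans (div_le_div_of_nonneg_left hr (by positivity) h2)
      have h1 : nr r c x = c := by
        unfold nr
        rw [Finset.filter_true_of_mem hall, Finset.card_range]
      have h2 : nr r (c + 1) x = c + 1 := by
        unfold nr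
        rw [Finset.filter_true_of_mem, Finset.card_range]
        intro s hs
        rcases Nat.lt_succ_iff_lt_or_eq.mp (Finset.mem_range.mp hs) with h | h
        · exact hall s (Finset.mem_range.mpr h)
        · rw [h]; exact hx
      rw [h1, h2, if_pos hx]
      ring
    · have h1 : nr r (c + 1) x = nr r c x := by
        unfold nr
        rw [Finset.range_add_one, Finset.filter_insert, if_neg hx]
      rw [h1, if_neg hx, add_zero]

open Classical in
/-- The number of lattice points in an interval. -/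
theorem card_le (u a r1 ρ : ℝ) (T : ℕ) (hu : 0 < u) (hρ : u ≤ ρ) :
    (((range T).filter (fun t : ℕ => |r1 + (t : ℝ) * u - a| ≤ ρ)).card : ℝ) ≤ 3 * ρ / u := by
  have hone : 1 ≤ ρ / u := by rw [le_div_iff₀ hu]; linarith
  rcases Finset.eq_empty_or_nonempty
    ((range T).filter (fun t : ℕ => |r1 + (t : ℝ) * u - a| ≤ ρ)) with h | h
  · rw [h]
    simp only [Finset.card_empty, Nat.cast_zero]
    have : 0 ≤ ρ := hu.le.trans hρ
    positivity
  · set F := (range T).filter (fun t : ℕ => |r1 + (t : ℝ) * u - a| ≤ ρ) with hF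
    have hmin := Finset.min'_mem F h
    have hmax := Finset.max'_mem F h
    have hsub : F ⊆ Finset.Icc (F.min' h) (F.max' h) := by
      intro t ht
      exact Finset.mem_Icc.mpr ⟨Finset.min'_le F t ht, Finset.le_max' F t ht⟩
    have hcard := Finset.card_le_card hsub
    rw [Nat.card_Icc] at hcard
    have hle : F.min' h ≤ F.max' h := Finset.min'_le F _ hmax
    have hc2 : (F.card : ℝ) + (F.min' h : ℝ) ≤ (F.max' h : ℝ) + 1 := by
      have : F.card + F.min' h ≤ F.max' h + 1 := by omega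
      exact_mod_cast this
    have h1 : |r1 + ((F.min' h : ℕ) : ℝ) * u - a| ≤ ρ :=
      (Finset.mem_filter.mp hmin).2
    have h2 : |r1 + ((F.max' h : ℕ) : ℝ) * u - a| ≤ ρ :=
      (Finset.mem_filter.mp hmax).2
    have h1' := abs_le.mp h1
    have h2' := abs_le.mp h2
    have h3 : (((F.max' h : ℕ) : ℝ) - ((F.min' h : ℕ) : ℝ)) * u ≤ 2 * ρ := by
      nlinarith [h1'.1, h2'.2]
    have h4 : ((F.max' h : ℕ) : ℝ) - ((F.min' h : ℕ) : ℝ) ≤ 2 * ρ / u := by
      rw [le_div_iff₀ hu]; exact h3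
    have h5 : 3 * ρ / u = 2 * ρ / u + ρ / u := by ring
    rw [h5]
    linarith

/-- The geometric series. -/
theorem geom (θ : ℝ) (h1 : 1 ≤ θ) (h2 : θ ≤ 5 / 3) (c : ℕ) :
    ∑ s ∈ range c, (θ - 1) * (θ / 2) ^ s ≤ 4 := by
  have h3 : ∀ c : ℕ, (1 - θ / 2) * ∑ s ∈ range c, (θ / 2) ^ s = 1 - (θ / 2) ^ c := by
    intro c
    induction c with
    | zero => simp
    | succ c ih => rw [Finset.sum_range_succ, mul_add, ih]; ring
  have h4 : 0 ≤ ∑ s ∈ range c, (θ / 2) ^ s :=
    Finset.sum_nonneg (fun s _ => by positivity)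
  have h5 : 0 ≤ (θ / 2) ^ c := by positivity
  rw [← Finset.mul_sum]
  have h6 := h3 c
  nlinarith [mul_nonneg (sub_nonneg.mpr h2) h4]

end ICT

open ICT in
theorem pr_CT : S_CT := by
  classical
  intro θ r u a r1 c T h1 h2 hu hr hs
  have e1 : ∑ t ∈ range T, (θ ^ nr r c (r1 + (t : ℝ) * u - a) - 1) =
      ∑ s ∈ range c, θ ^ s * (θ - 1) *
        (((range T).filter (fun t : ℕ => |r1 + (t : ℝ) * u - a| ≤ r / 2 ^ s)).card : ℝ) := by
    rw [Finset.sum_congr rfl (fun (t : ℕ) _ => pow_nr θ r (r1 + (t : ℝ) * u - a) hr c),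
      Finset.sum_comm]
    refine Finset.sum_congr rfl (fun s _ => ?_)
    rw [← Finset.sum_filter, Finset.sum_const, nsmul_eq_mul, mul_comm]
  rw [e1]
  have hθ : 0 ≤ θ - 1 := by linarith
  have e2 : ∀ s ∈ range c, θ ^ s * (θ - 1) *
        (((range T).filter (fun t : ℕ => |r1 + (t : ℝ) * u - a| ≤ r / 2 ^ s)).card : ℝ) ≤
      (3 * r / u) * ((θ - 1) * (θ / 2) ^ s) := by
    intro s hsm
    have hc := card_le u a r1 (r / 2 ^ s) T hu (hs s (Finset.mem_range.mp hsm))
    have hnn : 0 ≤ θ ^ s * (θ - 1) := mul_nonneg (by positivity) hθ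
    refine (mul_le_mul_of_nonneg_left hc hnn).trans (le_of_eq ?_)
    rw [div_pow]
    field_simp
  refine (Finset.sum_le_sum e2).trans ?_
  rw [← Finset.mul_sum]
  have hg := geom θ h1 h2 c
  have h3 : 0 ≤ 3 * r / u := by positivity
  refine (mul_le_mul_of_nonneg_left hg h3).trans (le_of_eq ?_)
  ring

end Pool.Agent.UTSP.DT
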