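import Pool.Agent.Work.MP_27a5a0_lc.DT.Stmts

/-!
MP_27a5a0_lc, block DT, item HP: the hierarchy of partitions.
-/

set_option autoImplicit false

namespace Pool.Agent.UTSP.DT

open Finset Pool.Agent.UTSP

namespace IHP

theorem exists_seq {α : Type*} (Q : ℕ → α → Prop) (R : ℕ → α → α → Prop) (a0 : α) (h0 : Q 0 a0)
    (hs : ∀ n a, Q n a → ∃ b, Q (n + 1) b ∧ R n a b) :
    ∃ f : ℕ → α, f 0 = a0 ∧ ∀ n, Q n (f n) ∧ R n (f n) (f (n + 1)) := by
  classical
  choose g hg using hs
  let F : ∀ n, {a // Q n a} := fun n =>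
    Nat.rec (motive := fun n => {a // Q n a}) ⟨a0, h0⟩
      (fun n s => ⟨g n s.1 s.2, (hg n s.1 s.2).1⟩) n
  exact ⟨fun n => (F n).1, rfl, fun n => ⟨(F n).2, (hg n (F n).1 (F n).2).2⟩⟩

/-- Number of radii at level `k`. -/
def cc (L k k1 : ℕ) : ℕ := k1 + L + 1 - max k k1

/-- Largest radius at level `k`. -/
noncomputable def rr (D : ℝ) (d L k k1 : ℕ) : ℝ :=
  if cc L k k1 = 0 then 0 else D / 2 ^ (max k k1) / (65536 * d)

/-- Base at level `k`. -/
noncomputable def th (k k1 : ℕ) : ℝ := 5 / 3 - (1 / 6) / 2 ^ (k1 - k)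

theorem th_ge (k k1 : ℕ) : 3 / 2 ≤ th k k1 := by
  unfold th
  have h : (1 / 6 : ℝ) / 2 ^ (k1 - k) ≤ 1 / 6 :=
    div_le_self (by norm_num) (one_le_pow₀ (by norm_num))
  linarith

theorem th_le (k k1 : ℕ) : th k k1 ≤ 5 / 3 := by
  unfold th
  have h : (0 : ℝ) ≤ (1 / 6 : ℝ) / 2 ^ (k1 - k) := by positivity
  linarith

theorem th_eq (k k1 : ℕ) (h : k1 ≤ k) : th k k1 = 3 / 2 := by
  unfold th
  rw [Nat.sub_eq_zero_of_le h]
  norm_num

theorem mm_mono {X : Type} [Fintype X] (δ : X → X → ℝ) (P : X → ℕ) (y : X) {r r' : ℝ}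
    (h : r ≤ r') : mm δ P y r ≤ mm δ P y r' := by
  unfold mm bl
  apply Finset.card_le_card
  apply Finset.image_subset_image
  intro x hx
  rw [Finset.mem_filter] at hx ⊢
  exact ⟨hx.1, hx.2.trans h⟩

theorem ee_zero {X : Type} [Fintype X] (δ : X → X → ℝ) (P : X → ℕ) (y : X) (r : ℝ) :
    ee δ P y r 0 = 0 := by
  unfold ee
  simp

theorem ee_succ {X : Type} [Fintype X] (δ : X → X → ℝ) (P : X → ℕ) (y : X) (r : ℝ) (c : ℕ) :
    ee δ P y r (c + 1) = mm δ P y r + ee δ P y (r / 2) c := by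
  unfold ee
  rw [Finset.sum_range_succ', add_comm]
  congr 1
  · rw [pow_zero, div_one]
  · refine Finset.sum_congr rfl fun s _ => ?_
    rw [pow_succ', div_div]

theorem eps_zero (q : ℕ) (Δ : ℝ) : eps q Δ 0 = 0 := by
  unfold eps
  simp

theorem eps_eq (d : ℕ) (D : ℝ) (hd : 1 ≤ d) (hD : 0 < D) (k j : ℕ) :
    eps (2 * d) (D / 2 ^ (k + 1)) (D / 2 ^ (k + 1 + j) / (65536 * d)) = (3 / 64) / 2 ^ j := by
  have hd' : (d : ℝ) ≠ 0 := by
    have : (0 : ℝ) < d := by exact_mod_cast hd
    exact this.ne'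
  have hD' : D ≠ 0 := hD.ne'
  unfold eps
  rw [pow_add (2 : ℝ) (k + 1) j]
  push_cast
  field_simp
  ring

/-- The comparison of one window between the levels `k` and `k + 1`. -/
theorem term_le {X : Type} [Fintype X] (δ : X → X → ℝ) (P : X → ℕ) (y : X) (d : ℕ) (D : ℝ)
    (hd : 1 ≤ d) (hD : 0 < D) (L k k1 : ℕ) :
    (4 / 3 : ℝ) ^ (if k1 ≤ k ∧ k ≤ k1 + L then mm δ P y (D / 2 ^ k / (65536 * d)) else 0) *
        (th (k + 1) k1 ^ ee δ P y (rr D d L (k + 1) k1) (cc L (k + 1) k1) *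
          (1 + eps (2 * d) (D / 2 ^ (k + 1)) (rr D d L (k + 1) k1)) ^
            mm δ P y (rr D d L (k + 1) k1)) ≤
      th k k1 ^ ee δ P y (rr D d L k k1) (cc L k k1) := by
  rcases lt_or_ge k k1 with h | h
  · -- k < k1
    obtain ⟨j, rfl⟩ : ∃ j, k1 = k + 1 + j := ⟨k1 - (k + 1), by omega⟩
    have hc : cc L (k + 1) (k + 1 + j) = L + 1 := by
      unfold cc
      rw [max_eq_right (by omega)]
      omega
    have hc' : cc L k (k + 1 + j) = L + 1 := by
      unfold cc
      rw [max_eq_right (by omega)]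
      omega
    have hr : rr D d L (k + 1) (k + 1 + j) = D / 2 ^ (k + 1 + j) / (65536 * d) := by
      unfold rr
      rw [hc, if_neg (by omega), max_eq_right (by omega)]
    have hr' : rr D d L k (k + 1 + j) = D / 2 ^ (k + 1 + j) / (65536 * d) := by
      unfold rr
      rw [hc', if_neg (by omega), max_eq_right (by omega)]
    rw [if_neg (by omega), pow_zero, one_mul, hc, hc', hr, hr', eps_eq d D hd hD k j]
    set r := D / 2 ^ (k + 1 + j) / (65536 * (d : ℝ)) with hrdef
    have hle : mm δ P y r ≤ ee δ P y r (L + 1) := by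
      rw [ee_succ]
      exact Nat.le_add_right _ _
    have ht0 : (0 : ℝ) < 1 / 2 ^ j := by positivity
    have ht1 : (1 : ℝ) / 2 ^ j ≤ 1 :=
      (div_le_one (by positivity)).2 (one_le_pow₀ (by norm_num))
    have h1 : (3 / 64 : ℝ) / 2 ^ j = 3 / 64 * (1 / 2 ^ j) := by ring
    have h2 : th (k + 1) (k + 1 + j) = 5 / 3 - 1 / 6 * (1 / 2 ^ j) := by
      unfold th
      rw [show k + 1 + j - (k + 1) = j by omega]
      ring
    have h3 : th k (k + 1 + j) = 5 / 3 - 1 / 12 * (1 / 2 ^ j) := by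
      unfold th
      rw [show k + 1 + j - k = j + 1 by omega, pow_succ]
      field_simp
      ring
    have hkey : th (k + 1) (k + 1 + j) * (1 + (3 / 64 : ℝ) / 2 ^ j) ≤ th k (k + 1 + j) := by
      rw [h1, h2, h3]
      nlinarith [sq_nonneg ((1 : ℝ) / 2 ^ j)]
    have hone : (1 : ℝ) ≤ 1 + (3 / 64 : ℝ) / 2 ^ j := by
      have : (0 : ℝ) ≤ (3 / 64 : ℝ) / 2 ^ j := by positivity
      linarith
    have hth0 : (0 : ℝ) ≤ th (k + 1) (k + 1 + j) := by
      linarith [th_ge (k + 1) (k + 1 + j)]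
    calc th (k + 1) (k + 1 + j) ^ ee δ P y r (L + 1) * (1 + (3 / 64 : ℝ) / 2 ^ j) ^ mm δ P y r
        ≤ th (k + 1) (k + 1 + j) ^ ee δ P y r (L + 1) *
            (1 + (3 / 64 : ℝ) / 2 ^ j) ^ ee δ P y r (L + 1) :=
          mul_le_mul_of_nonneg_left (pow_le_pow_right₀ hone hle) (pow_nonneg hth0 _)
      _ = (th (k + 1) (k + 1 + j) * (1 + (3 / 64 : ℝ) / 2 ^ j)) ^ ee δ P y r (L + 1) := by
          rw [mul_pow]
      _ ≤ th k (k + 1 + j) ^ ee δ P y r (L + 1) :=
          pow_le_pow_left₀ (mul_nonneg hth0 (by linarith)) hkey _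
  · rcases le_or_gt k (k1 + L) with h' | h'
    · -- k1 ≤ k ≤ k1 + L
      have hc : cc L k k1 = cc L (k + 1) k1 + 1 := by
        unfold cc
        rw [max_eq_left h, max_eq_left (by omega)]
        omega
      have hr : rr D d L k k1 = D / 2 ^ k / (65536 * d) := by
        unfold rr
        rw [hc, if_neg (by omega), max_eq_left h]
      rw [if_pos ⟨h, h'⟩, th_eq k k1 h, th_eq (k + 1) k1 (by omega), hc, ee_succ, hr]
      rcases Nat.eq_zero_or_pos (cc L (k + 1) k1) with h0 | h0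
      · have hr1 : rr D d L (k + 1) k1 = 0 := by
          unfold rr
          rw [if_pos h0]
        rw [h0, hr1, eps_zero, ee_zero, ee_zero, add_zero, add_zero, one_pow, pow_zero, mul_one,
          mul_one]
        exact pow_le_pow_left₀ (by norm_num) (by norm_num) _
      · have hr1 : rr D d L (k + 1) k1 = D / 2 ^ (k + 1 + 0) / (65536 * d) := by
          unfold rr
          rw [if_neg (by omega), max_eq_left (by omega), add_zero]
        have hr2 : rr D d L (k + 1) k1 = D / 2 ^ k / (65536 * d) / 2 := by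
          rw [hr1, add_zero, pow_succ]
          ring
        have hnn : (0 : ℝ) ≤ D / 2 ^ k / (65536 * d) := by positivity
        have hmm : mm δ P y (rr D d L (k + 1) k1) ≤ mm δ P y (D / 2 ^ k / (65536 * d)) := by
          apply mm_mono
          rw [hr2]
          linarith
        have heps : eps (2 * d) (D / 2 ^ (k + 1)) (rr D d L (k + 1) k1) = 3 / 64 := by
          rw [hr1, eps_eq d D hd hD k 0, pow_zero, div_one]
        rw [heps]
        rw [hr2] at hmm ⊢
        set r := D / 2 ^ k / (65536 * (d : ℝ)) with hrdef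
        calc (4 / 3 : ℝ) ^ mm δ P y r *
              ((3 / 2 : ℝ) ^ ee δ P y (r / 2) (cc L (k + 1) k1) *
                (1 + 3 / 64 : ℝ) ^ mm δ P y (r / 2))
            ≤ (4 / 3 : ℝ) ^ mm δ P y r *
              ((3 / 2 : ℝ) ^ ee δ P y (r / 2) (cc L (k + 1) k1) *
                (1 + 3 / 64 : ℝ) ^ mm δ P y r) := by
              apply mul_le_mul_of_nonneg_left _ (by positivity)
              apply mul_le_mul_of_nonneg_left _ (by positivity)
              exact pow_le_pow_right₀ (by norm_num) hmm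
          _ = ((4 / 3 : ℝ) * (1 + 3 / 64 : ℝ)) ^ mm δ P y r *
                (3 / 2 : ℝ) ^ ee δ P y (r / 2) (cc L (k + 1) k1) := by
              rw [mul_pow]
              ring
          _ ≤ (3 / 2 : ℝ) ^ mm δ P y r * (3 / 2 : ℝ) ^ ee δ P y (r / 2) (cc L (k + 1) k1) := by
              apply mul_le_mul_of_nonneg_right _ (by positivity)
              exact pow_le_pow_left₀ (by norm_num) (by norm_num) _
          _ = (3 / 2 : ℝ) ^ (mm δ P y r + ee δ P y (r / 2) (cc L (k + 1) k1)) := by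
              rw [pow_add]
    · -- k > k1 + L
      have hc : cc L k k1 = 0 := by
        unfold cc
        rw [max_eq_left h]
        omega
      have hc1 : cc L (k + 1) k1 = 0 := by
        unfold cc
        rw [max_eq_left (by omega)]
        omega
      have hr1 : rr D d L (k + 1) k1 = 0 := by
        unfold rr
        rw [if_pos hc1]
      rw [if_neg (by omega), hc, hc1, hr1, eps_zero, ee_zero, ee_zero, add_zero, one_pow, pow_zero,
        pow_zero, pow_zero, mul_one, mul_one]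

theorem okw (d : ℕ) (D : ℝ) (hd : 1 ≤ d) (hD : 0 < D) (L k : ℕ) {W : Type} (kk : W → ℕ) :
    OKW (D / 2 ^ k) (2 * d) (fun w => rr D d L k (kk w)) (fun w => cc L k (kk w))
      (fun w => th k (kk w)) := by
  intro w
  have hd' : (0 : ℝ) < d := by exact_mod_cast hd
  refine ⟨by linarith [th_ge k (kk w)], th_le k (kk w), ?_, ?_, ?_⟩
  · change 0 ≤ rr D d L k (kk w)
    unfold rr
    split_ifs
    · exact le_rfl
    · positivity
  · intro h
    change 0 < rr D d L k (kk w)
    unfold rr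
    rw [if_neg (by change 0 < cc L k (kk w) at h; omega)]
    positivity
  · change rr D d L k (kk w) ≤ _
    have hnn : (0 : ℝ) ≤ D / 2 ^ k / (32768 * ((2 * d : ℕ) : ℝ)) := by positivity
    unfold rr
    split_ifs
    · exact hnn
    · have h1 : (32768 * ((2 * d : ℕ) : ℝ)) = 65536 * (d : ℝ) := by
        push_cast
        ring
      rw [h1]
      apply div_le_div_of_nonneg_right _ (by positivity)
      apply div_le_div_of_nonneg_left hD.le (by positivity)
      exact pow_le_pow_right₀ (by norm_num) (le_max_left _ _)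

theorem ee_const {X : Type} [Fintype X] (δ : X → X → ℝ) (y : X) (r : ℝ) (c : ℕ) :
    ee δ (fun _ => 0) y r c ≤ c := by
  unfold ee
  calc ∑ s ∈ range c, mm δ (fun _ => 0) y (r / 2 ^ s) ≤ ∑ _s ∈ range c, 1 := by
        refine Finset.sum_le_sum fun s _ => ?_
        unfold mm bl
        calc _ ≤ (Finset.card {0}) := by
              apply Finset.card_le_card
              intro a ha
              rw [Finset.mem_image] at ha
              obtain ⟨x, _, hx⟩ := ha
              rw [Finset.mem_singleton]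
              exact hx.symm
          _ = 1 := Finset.card_singleton _
    _ = c := by simp

end IHP

open IHP in
theorem pr_HP (hOL : S_OL) (hNET : S_NET) : S_HP := by
  intro X _ δ hδ d hd hdoub D hD hdiam L Ks
  classical
  have key := exists_seq (α := (X → ℕ) × ((X × {k // k ∈ Ks}) → ℝ))
    (fun k s => (∀ w, 0 ≤ s.2 w) ∧ (∀ x y, s.1 x = s.1 y → δ x y ≤ D / 2 ^ k) ∧
      ∑ w, s.2 w * th k w.2.1 ^ ee δ s.1 w.1 (rr D d L k w.2.1) (cc L k w.2.1) ≤
        (Fintype.card X : ℝ) * Ks.card * (5 / 3) ^ (L + 1))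
    (fun k s s' => (∀ x y, s'.1 x = s'.1 y → s.1 x = s.1 y) ∧
      ∀ w, s'.2 w = s.2 w * (4 / 3 : ℝ) ^ (if w.2.1 ≤ k ∧ k ≤ w.2.1 + L then
        mm δ s.1 w.1 (D / 2 ^ k / (65536 * d)) else 0))
    (fun _ => 0, fun _ => 1) ?_ ?_
  · obtain ⟨f, hf0, hf⟩ := key
    refine ⟨fun k => (f k).1, ?_, ?_, ?_, ?_⟩
    · intro x y
      simp only [hf0]
    · intro k x y h
      exact (hf k).2.1 x y h
    · intro k x y h
      exact (hf k).1.2.1 x y h
    · intro y k1 hk1
      set w : X × {k // k ∈ Ks} := (y, ⟨k1, hk1⟩) with hw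
      have hpsi : ∀ n, (f n).2 w = (4 / 3 : ℝ) ^ (∑ i ∈ range n,
          if k1 ≤ i ∧ i ≤ k1 + L then mm δ (f i).1 y (D / 2 ^ i / (65536 * d)) else 0) := by
        intro n
        induction n with
        | zero => rw [hf0, Finset.sum_range_zero, pow_zero]
        | succ n ih => rw [(hf n).2.2 w, ih, Finset.sum_range_succ, pow_add]
      have hlast := hpsi (k1 + L + 1)
      rw [← Finset.sum_filter] at hlast
      have hset : (range (k1 + L + 1)).filter (fun i => k1 ≤ i ∧ i ≤ k1 + L) =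
          Icc k1 (k1 + L) := by
        ext i
        simp only [Finset.mem_filter, Finset.mem_range, Finset.mem_Icc]
        omega
      rw [hset] at hlast
      obtain ⟨hnn, -, hsum⟩ := (hf (k1 + L + 1)).1
      rw [← hlast]
      refine le_trans ?_ hsum
      refine le_trans ?_ (Finset.single_le_sum (f := fun w : X × {k // k ∈ Ks} =>
        (f (k1 + L + 1)).2 w * th (k1 + L + 1) w.2.1 ^
          ee δ (f (k1 + L + 1)).1 w.1 (rr D d L (k1 + L + 1) w.2.1) (cc L (k1 + L + 1) w.2.1))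
        (fun w _ => mul_nonneg (hnn w)
          (pow_nonneg (by linarith [th_ge (k1 + L + 1) w.2.1]) _)) (Finset.mem_univ w))
      exact le_mul_of_one_le_right (hnn w)
        (one_le_pow₀ (by linarith [th_ge (k1 + L + 1) w.2.1]))
  · refine ⟨fun w => zero_le_one, ?_, ?_⟩
    · intro x y _
      rw [pow_zero, div_one]
      exact hdiam x y
    · calc _ ≤ ∑ _w : X × {k // k ∈ Ks}, ((5 / 3 : ℝ) ^ (L + 1)) := by
            refine Finset.sum_le_sum fun w _ => ?_
            rw [one_mul]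
            have hc : cc L 0 w.2.1 = L + 1 := by
              unfold cc
              rw [max_eq_right (Nat.zero_le _)]
              omega
            rw [hc]
            calc _ ≤ (5 / 3 : ℝ) ^ ee δ (fun _ => 0) w.1 (rr D d L 0 w.2.1) (L + 1) :=
                  pow_le_pow_left₀ (by linarith [th_ge 0 w.2.1]) (th_le 0 w.2.1) _
              _ ≤ (5 / 3 : ℝ) ^ (L + 1) :=
                  pow_le_pow_right₀ (by norm_num) (ee_const δ w.1 _ (L + 1))
        _ = (Fintype.card X : ℝ) * Ks.card * (5 / 3) ^ (L + 1) := by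
            rw [Finset.sum_const, Finset.card_univ, Fintype.card_prod, Fintype.card_coe,
              nsmul_eq_mul]
            push_cast
            ring
  · rintro k ⟨P, ψ⟩ ⟨hnn, hdi, hsum⟩
    have hΔ : (0 : ℝ) < D / 2 ^ (k + 1) := by positivity
    obtain ⟨cs, hcs, hcs'⟩ := hNET X δ hδ (2 ^ d) hdoub (D / 2 ^ (k + 1)) hΔ
    have hN1 : 1 ≤ (2 ^ d) ^ 3 := Nat.one_le_pow _ _ (by positivity)
    have hN2 : (2 ^ d) ^ 3 ≤ 4 ^ (2 * d) := by
      rw [show (4 : ℕ) = 2 ^ 2 by norm_num, ← pow_mul, ← pow_mul]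
      exact Nat.pow_le_pow_right (by norm_num) (by omega)
    obtain ⟨P', hP1, hP2, hP3⟩ := hOL X δ hδ (X × {k // k ∈ Ks}) (fun w => w.1)
      (fun w => rr D d L (k + 1) w.2.1) (fun w => th (k + 1) w.2.1)
      (fun w => ψ w * (4 / 3 : ℝ) ^ (if w.2.1 ≤ k ∧ k ≤ w.2.1 + L then
        mm δ P w.1 (D / 2 ^ k / (65536 * d)) else 0))
      (fun w => cc L (k + 1) w.2.1) (D / 2 ^ (k + 1)) ((2 ^ d) ^ 3) (2 * d) hΔ (by omega) hN1 hN2
      (okw d D hd hD L (k + 1) (fun w : X × {k // k ∈ Ks} => w.2.1))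
      (fun w => mul_nonneg (hnn w) (by positivity)) cs hcs hcs' P
    refine ⟨(P', fun w => ψ w * (4 / 3 : ℝ) ^ (if w.2.1 ≤ k ∧ k ≤ w.2.1 + L then
        mm δ P w.1 (D / 2 ^ k / (65536 * d)) else 0)), ⟨?_, ?_, ?_⟩, ?_, ?_⟩
    · intro w
      exact mul_nonneg (hnn w) (by positivity)
    · exact hP2
    · refine le_trans hP3 (le_trans (Finset.sum_le_sum fun w _ => ?_) hsum)
      have ht := term_le δ P w.1 d D hd hD L k w.2.1
      have ht' := mul_le_mul_of_nonneg_left ht (hnn w)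
      refine le_trans (le_of_eq ?_) ht'
      ring
    · exact hP1
    · intro w
      rfl

end Pool.Agent.UTSP.DT
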