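import Pool.Agent.Work.MP_27a5a0_lc.DT.Stmts

/-!
MP_27a5a0_lc, block DT, item NET: nets in doubling metric spaces.
-/

set_option autoImplicit false

namespace Pool.Agent.UTSP.DT

open Finset Pool.Agent.UTSP

namespace INET

/-- A ball is covered by `K ^ m` balls of radius smaller by the factor `2 ^ m`. -/
theorem cover {X : Type} (δ : X → X → ℝ) (K : ℕ) (hK : Doubling δ K) (m : ℕ) (x : X) (r : ℝ)
    (hr : 0 < r) : ∃ A : Finset X, A.card ≤ K ^ m ∧ ∀ y, δ x y ≤ r → ∃ a ∈ A, δ a y ≤ r / 2 ^ m := by
  classical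
  induction m with
  | zero =>
    refine ⟨{x}, by simp, fun y hy => ⟨x, by simp, by simpa using hy⟩⟩
  | succ m ih =>
    obtain ⟨A, hA, hcov⟩ := ih
    have hpos : 0 < r / 2 ^ m := by positivity
    choose B hB hBc using fun a : X => hK a (r / 2 ^ m) hpos
    refine ⟨A.biUnion B, ?_, ?_⟩
    · calc (A.biUnion B).card ≤ A.card * K := Finset.card_biUnion_le_card_mul A B K (fun a _ => hB a)
        _ ≤ K ^ m * K := Nat.mul_le_mul_right K hA
        _ = K ^ (m + 1) := (pow_succ K m).symm
    · intro y hy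
      obtain ⟨a, ha, hay⟩ := hcov y hy
      obtain ⟨b, hb, hby⟩ := hBc a y hay
      refine ⟨b, Finset.mem_biUnion.2 ⟨a, ha, hb⟩, ?_⟩
      have h2 : r / 2 ^ (m + 1) = r / 2 ^ m / 2 := by
        rw [pow_succ, div_div]
      rw [h2]
      exact hby

open Classical in
/-- `countP` along the list of a finite set is the cardinality of a filter. -/
theorem countP_toList {X : Type} (S : Finset X) (p : X → Prop) :
    S.toList.countP (fun c => decide (p c)) = (S.filter p).card := by
  rw [List.countP_eq_length_filter]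
  have hnd : (S.toList.filter (fun c => decide (p c))).Nodup := S.nodup_toList.filter _
  rw [← List.toFinset_card_of_nodup hnd]
  congr 1
  ext c
  simp

end INET

open INET in
/-- [NET] -/
theorem pr_NET : S_NET := by
  classical
  intro X _ δ hδ K hK Δ hΔ
  obtain ⟨S, hS, hmax⟩ := Finset.exists_max_image
    ((univ : Finset (Finset X)).filter
      (fun S => ∀ x ∈ S, ∀ y ∈ S, x ≠ y → Δ / 4 < δ x y)) Finset.card
    ⟨∅, by simp⟩
  have hsep : ∀ x ∈ S, ∀ y ∈ S, x ≠ y → Δ / 4 < δ x y := (Finset.mem_filter.1 hS).2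
  refine ⟨S.toList, ?_, ?_⟩
  · intro x
    by_contra hcon
    have hfar : ∀ z ∈ S, Δ / 4 < δ z x := by
      intro z hz
      by_contra hle
      exact hcon ⟨z, Finset.mem_toList.2 hz, not_lt.1 hle⟩
    have hx : x ∉ S := by
      intro hx
      have h1 := hfar x hx
      rw [hδ.self] at h1
      linarith
    have hins : insert x S ∈ (univ : Finset (Finset X)).filter
        (fun S => ∀ x ∈ S, ∀ y ∈ S, x ≠ y → Δ / 4 < δ x y) := by
      refine Finset.mem_filter.2 ⟨Finset.mem_univ _, ?_⟩
      intro a ha b hb hab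
      rcases Finset.mem_insert.1 ha with rfl | ha'
      · rcases Finset.mem_insert.1 hb with rfl | hb'
        · exact absurd rfl hab
        · rw [hδ.symm]
          exact hfar b hb'
      · rcases Finset.mem_insert.1 hb with rfl | hb'
        · exact hfar a ha'
        · exact hsep a ha' b hb' hab
    have h1 := hmax _ hins
    rw [Finset.card_insert_of_notMem hx] at h1
    omega
  · intro x
    obtain ⟨A, hA, hcov⟩ := cover δ K hK 3 x Δ hΔ
    have hnc : nc δ Δ S.toList x = (S.filter (fun c => δ c x ≤ Δ)).card := by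
      unfold nc
      exact countP_toList S (fun c => δ c x ≤ Δ)
    rw [hnc]
    refine le_trans ?_ hA
    have hex : ∀ c, ∃ a, c ∈ S.filter (fun c => δ c x ≤ Δ) → a ∈ A ∧ δ a c ≤ Δ / 2 ^ 3 := by
      intro c
      by_cases hc : c ∈ S.filter (fun c => δ c x ≤ Δ)
      · have h2 : δ x c ≤ Δ := by
          rw [hδ.symm]
          exact (Finset.mem_filter.1 hc).2
        obtain ⟨a, ha, hac⟩ := hcov c h2
        exact ⟨a, fun _ => ⟨ha, hac⟩⟩
      · exact ⟨x, fun h => absurd h hc⟩
    choose f hf using hex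
    refine Finset.card_le_card_of_injOn f (fun c hc => (hf c hc).1) ?_
    intro c hc c' hc' hcc
    have hc1 := Finset.mem_coe.1 hc
    have hc2 := Finset.mem_coe.1 hc'
    by_contra hne
    have h1 := hsep c (Finset.mem_filter.1 hc1).1 c' (Finset.mem_filter.1 hc2).1 hne
    have h2 := (hf c hc1).2
    have h3 := (hf c' hc2).2
    have hcc' : f c = f c' := hcc
    rw [← hcc'] at h3
    have h4 := hδ.tri c (f c) c'
    rw [hδ.symm c (f c)] at h4
    have h5 : Δ / 2 ^ 3 = Δ / 8 := by norm_num
    rw [h5] at h2 h3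
    linarith

end Pool.Agent.UTSP.DT
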