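import Pool.Agent.Work.MP_27a5a0_lc.DT.Stmts

/-!
MP_27a5a0_lc, block DT, item OL: the octave lemma.
-/

set_option autoImplicit false

namespace Pool.Agent.UTSP.DT

open Finset Pool.Agent.UTSP

namespace IOL

/-- The error is nonnegative. -/
lemma eps_nonneg (q : ℕ) (Δ r : ℝ) (hΔ : 0 < Δ) (hr : 0 ≤ r) : 0 ≤ eps q Δ r := by
  unfold eps; positivity

/-- The error is at most one. -/
lemma eps_le_one (q : ℕ) (Δ r : ℝ) (hΔ : 0 < Δ) (hq : 1 ≤ q) (h : r ≤ Δ / (32768 * q)) :
    eps q Δ r ≤ 1 := by
  unfold eps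
  have hq' : (0 : ℝ) < q := by exact_mod_cast hq
  rw [div_le_one hΔ]
  have h2 : r * (32768 * q) ≤ Δ := by
    rwa [le_div_iff₀ (by positivity)] at h
  nlinarith

/-- The factor of one block. -/
lemma factor_le (ε : ℝ) (N k : ℕ) (h0 : 0 ≤ ε) (h1 : ε ≤ 1) (hN : 1 ≤ N) (hk : k ≤ N) :
    (1 + ε / 2) * (1 + ε / (4 * N)) ^ k ≤ 1 + ε := by
  have hN' : (0 : ℝ) < N := by exact_mod_cast hN
  have hx : 0 ≤ ε / (4 * N) := by positivity
  have e1 : (1 + ε / (4 * N)) ^ k ≤ (1 + ε / (4 * N)) ^ N :=
    pow_le_pow_right₀ (by linarith) hk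
  have e2 : (1 + ε / (4 * N)) ^ N ≤ Real.exp (ε / 4) := by
    calc (1 + ε / (4 * N)) ^ N ≤ (Real.exp (ε / (4 * N))) ^ N := by
          refine pow_le_pow_left₀ (by linarith) ?_ N
          have := Real.add_one_le_exp (ε / (4 * N))
          linarith
      _ = Real.exp (ε / 4) := by
          rw [← Real.exp_nat_mul]
          congr 1
          field_simp
  have e3 : Real.exp (ε / 4) * (1 - ε / 4) ≤ 1 := by
    have h3 : 1 - ε / 4 ≤ Real.exp (-(ε / 4)) := Real.one_sub_le_exp_neg _
    calc Real.exp (ε / 4) * (1 - ε / 4) ≤ Real.exp (ε / 4) * Real.exp (-(ε / 4)) :=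
          mul_le_mul_of_nonneg_left h3 (Real.exp_pos _).le
      _ = 1 := by rw [← Real.exp_add]; simp
  have hE : 0 < Real.exp (ε / 4) := Real.exp_pos _
  have e4 : (1 + ε / 2) ≤ (1 + ε) * (1 - ε / 4) := by nlinarith
  calc (1 + ε / 2) * (1 + ε / (4 * N)) ^ k ≤ (1 + ε / 2) * Real.exp (ε / 4) :=
        mul_le_mul_of_nonneg_left (e1.trans e2) (by linarith)
    _ ≤ ((1 + ε) * (1 - ε / 4)) * Real.exp (ε / 4) :=
        mul_le_mul_of_nonneg_right e4 hE.le
    _ = (1 + ε) * (Real.exp (ε / 4) * (1 - ε / 4)) := by ring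
    _ ≤ (1 + ε) * 1 := mul_le_mul_of_nonneg_left e3 (by linarith)
    _ = 1 + ε := by ring

open Classical in
/-- The induction over the treated labels. -/
lemma step (hBL : S_BL) (X : Type) [Fintype X] (δ : X → X → ℝ) (hδ : IsMet δ)
    (W : Type) [Fintype W] (y : W → X)
    (r θ φ : W → ℝ) (c : W → ℕ) (Δ : ℝ) (N q : ℕ) (hΔ : 0 < Δ) (hq : 1 ≤ q) (hN : 1 ≤ N)
    (hNq : N ≤ 4 ^ q) (hOK : OKW Δ q r c θ) (hφ : ∀ w, 0 ≤ φ w) (cs : List X)
    (hcs : ∀ x, ∃ z ∈ cs, δ z x ≤ Δ / 4) (hnc : ∀ x, nc δ Δ cs x ≤ N) (P : X → ℕ)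
    (L : Finset ℕ) : L ⊆ univ.image P →
    ∃ P1 : X → ℕ, (∀ x x', P1 x = P1 x' → P x = P x') ∧ (∀ x, P x ∉ L → P1 x = P x) ∧
      (∀ x x', P x ∈ L → P1 x = P1 x' → δ x x' ≤ Δ) ∧
      ∑ w, φ w * θ w ^ ee δ P1 (y w) (r w) (c w) *
          (1 + eps q Δ (r w)) ^ ((bl δ P (y w) (r w)).filter (fun b => b ∉ L)).card ≤
        ∑ w, φ w * θ w ^ ee δ P (y w) (r w) (c w) *
          (1 + eps q Δ (r w)) ^ mm δ P (y w) (r w) := by
  induction L using Finset.induction_on with
  | empty =>
    intro _
    refine ⟨P, fun x x' h => h, fun x _ => rfl, fun x x' h => absurd h (Finset.notMem_empty _), ?_⟩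
    apply le_of_eq
    refine Finset.sum_congr rfl fun w _ => ?_
    simp [mm]
  | insert β L hβ ih =>
    intro hsub
    obtain ⟨P1, ha, hb, hd, he⟩ := ih (fun a ha => hsub (Finset.mem_insert_of_mem ha))
    have hβP : β ∈ univ.image P := hsub (Finset.mem_insert_self _ _)
    obtain ⟨x0, -, hx0⟩ := Finset.mem_image.1 hβP
    have hcc : ∀ x, P1 x = β → P x = β := by
      intro x hx
      have h1 : P1 x0 = β := by rw [hb x0 (by rw [hx0]; exact hβ), hx0]
      have h2 := ha x x0 (by rw [hx, h1])
      rw [h2, hx0]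
    have hE0 : ∀ w, 0 ≤ eps q Δ (r w) := fun w => eps_nonneg q Δ _ hΔ (hOK w).2.2.1
    have hE1 : ∀ w, eps q Δ (r w) ≤ 1 := fun w => eps_le_one q Δ _ hΔ hq (hOK w).2.2.2.2
    obtain ⟨P', h1, h2, h3, h4⟩ := hBL X δ hδ W y r θ
      (fun w => φ w * (1 + eps q Δ (r w)) ^
        ((bl δ P (y w) (r w)).filter (fun b => b ∉ insert β L)).card) c Δ N q hΔ hq hN hNq hOK
      (fun w => mul_nonneg (hφ w) (pow_nonneg (by linarith [hE0 w]) _)) cs P1 β
      (fun x _ => hcs x)
    refine ⟨P', fun x x' h => ha x x' (h2 x x' h), ?_, ?_, ?_⟩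
    · intro x hx
      have hx1 : P x ≠ β := fun h => hx (by rw [h]; exact Finset.mem_insert_self _ _)
      have hx2 : P x ∉ L := fun h => hx (Finset.mem_insert_of_mem h)
      have hx3 : P1 x = P x := hb x hx2
      rw [h1 x (by rw [hx3]; exact hx1), hx3]
    · intro x x' hx hxx
      rcases Finset.mem_insert.1 hx with h | h
      · refine h3 x x' ?_ hxx
        rw [hb x (by rw [h]; exact hβ), h]
      · exact hd x x' h (h2 x x' hxx)
    · refine le_trans ?_ he
      calc ∑ w, φ w * θ w ^ ee δ P' (y w) (r w) (c w) *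
            (1 + eps q Δ (r w)) ^
              ((bl δ P (y w) (r w)).filter (fun b => b ∉ insert β L)).card
          = ∑ w, (φ w * (1 + eps q Δ (r w)) ^
              ((bl δ P (y w) (r w)).filter (fun b => b ∉ insert β L)).card) *
              θ w ^ ee δ P' (y w) (r w) (c w) := by
            refine Finset.sum_congr rfl fun w _ => ?_
            ring
        _ ≤ _ := h4
        _ ≤ _ := by
            refine Finset.sum_le_sum fun w _ => ?_
            have hθ : 0 ≤ θ w ^ ee δ P1 (y w) (r w) (c w) :=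
              pow_nonneg (by linarith [(hOK w).1]) _
            have hA : 0 ≤ φ w * θ w ^ ee δ P1 (y w) (r w) (c w) := mul_nonneg (hφ w) hθ
            have key : (1 + eps q Δ (r w)) ^
                ((bl δ P (y w) (r w)).filter (fun b => b ∉ insert β L)).card *
                (if β ∈ bl δ P1 (y w) (r w) then
                  (1 + eps q Δ (r w) / 2) * (1 + eps q Δ (r w) / (4 * N)) ^ nc δ Δ cs (y w)
                  else 1) ≤
                (1 + eps q Δ (r w)) ^
                  ((bl δ P (y w) (r w)).filter (fun b => b ∉ L)).card := by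
              have hone : (1 : ℝ) ≤ 1 + eps q Δ (r w) := by linarith [hE0 w]
              split_ifs with hin
              · have hinP : β ∈ bl δ P (y w) (r w) := by
                  unfold bl at hin ⊢
                  obtain ⟨x, hx, hxβ⟩ := Finset.mem_image.1 hin
                  exact Finset.mem_image.2 ⟨x, hx, hcc x hxβ⟩
                have hcard : ((bl δ P (y w) (r w)).filter (fun b => b ∉ L)).card =
                    ((bl δ P (y w) (r w)).filter (fun b => b ∉ insert β L)).card + 1 := by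
                  rw [← Finset.card_insert_of_notMem (a := β)
                    (s := (bl δ P (y w) (r w)).filter (fun b => b ∉ insert β L))]
                  · congr 1
                    ext b
                    simp only [Finset.mem_filter, Finset.mem_insert, not_or]
                    constructor
                    · rintro ⟨hb1, hb2⟩
                      by_cases hbb : b = β
                      · exact Or.inl hbb
                      · exact Or.inr ⟨hb1, hbb, hb2⟩
                    · rintro (hbb | ⟨hb1, -, hb2⟩)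
                      · rw [hbb]; exact ⟨hinP, hβ⟩
                      · exact ⟨hb1, hb2⟩
                  · intro hmem
                    exact (Finset.mem_filter.1 hmem).2 (Finset.mem_insert_self _ _)
                rw [hcard, pow_succ]
                exact mul_le_mul_of_nonneg_left
                  (factor_le _ N _ (hE0 w) (hE1 w) hN (hnc _)) (pow_nonneg (by linarith) _)
              · rw [mul_one]
                refine pow_le_pow_right₀ hone (Finset.card_le_card ?_)
                intro b hb'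
                rw [Finset.mem_filter] at hb' ⊢
                exact ⟨hb'.1, fun h => hb'.2 (Finset.mem_insert_of_mem h)⟩
            calc _ = (φ w * θ w ^ ee δ P1 (y w) (r w) (c w)) * ((1 + eps q Δ (r w)) ^
                ((bl δ P (y w) (r w)).filter (fun b => b ∉ insert β L)).card *
                (if β ∈ bl δ P1 (y w) (r w) then
                  (1 + eps q Δ (r w) / 2) * (1 + eps q Δ (r w) / (4 * N)) ^ nc δ Δ cs (y w)
                  else 1)) := by ring
              _ ≤ _ := mul_le_mul_of_nonneg_left key hA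

end IOL

/-- Item OL. -/
theorem pr_OL (hBL : S_BL) : S_OL := by
  classical
  intro X _ δ hδ W _ y r θ φ c Δ N q hΔ hq hN hNq hOK hφ cs hcs hnc P
  obtain ⟨P1, ha, hb, hd, he⟩ := IOL.step hBL X δ hδ W y r θ φ c Δ N q hΔ hq hN hNq hOK hφ cs
    hcs hnc P (univ.image P) (Finset.Subset.refl _)
  refine ⟨P1, ha, fun x x' h => hd x x' (Finset.mem_image_of_mem P (Finset.mem_univ x)) h, ?_⟩
  refine le_trans (le_of_eq ?_) he
  refine Finset.sum_congr rfl fun w _ => ?_
  have h0 : ((bl δ P (y w) (r w)).filter (fun b => b ∉ univ.image P)).card = 0 := by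
    rw [Finset.card_eq_zero, Finset.filter_eq_empty_iff]
    intro b hb' hn
    apply hn
    unfold bl at hb'
    obtain ⟨x, -, hx⟩ := Finset.mem_image.1 hb'
    exact Finset.mem_image.2 ⟨x, Finset.mem_univ _, hx⟩
  rw [h0, pow_zero, mul_one]

end Pool.Agent.UTSP.DT
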