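import Pool.Agent.Work.MP_27a5a0_lc.DT.Stmts

set_option autoImplicit false

namespace Pool.Agent.UTSP.DT

open Finset Pool.Agent.UTSP

namespace IRT

lemma dist_nonneg' {X : Type} {δ : X → X → ℝ} (h : IsMet δ) (x y : X) : 0 ≤ δ x y := by
  classical
  by_cases hxy : x = y
  · subst hxy
    rw [h.self]
  · exact (h.pos x y hxy).le

lemma walk_nonneg {X : Type} {δ : X → X → ℝ} (h : IsMet δ) : ∀ l : List X, 0 ≤ walk δ l
  | [] => by simp [walk]
  | [_] => by simp [walk]
  | x :: y :: l => by
      simp only [walk]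
      have h1 := dist_nonneg' h x y
      have h2 := walk_nonneg h (y :: l)
      linarith

lemma cyc_nonneg {X : Type} {δ : X → X → ℝ} (h : IsMet δ) (l : List X) : 0 ≤ cyc δ l := by
  cases l with
  | nil => simp [cyc]
  | cons x l => exact walk_nonneg h _

end IRT

open IRT

theorem pr_RT : S_RT := by
  intro X _ _ δ hδ κ τ hκ hR
  unfold ratio
  apply iSup_le
  rintro ⟨S, hS⟩
  apply ENNReal.ofReal_le_ofReal
  have hopt : 0 ≤ opt δ S := by
    unfold opt
    apply Real.sInf_nonneg
    rintro c ⟨σ, _, rfl⟩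
    exact cyc_nonneg hδ σ
  rcases hopt.eq_or_lt with h0 | h0
  · simp only
    rw [← h0, div_zero]
    exact hκ
  · simp only
    rw [div_le_iff₀ h0]
    have hne : {c : ℝ | ∃ σ : List X, IsOrd S σ ∧ cyc δ σ = c}.Nonempty :=
      ⟨cyc δ S.toList, S.toList, ⟨S.nodup_toList, S.toList_toFinset⟩, rfl⟩
    rcases hκ.eq_or_lt with hk | hk
    · have := hR S hS S.toList ⟨S.nodup_toList, S.toList_toFinset⟩
      rw [← hk] at this ⊢
      linarith
    · have h2 : cyc δ (τ.filter (fun x => decide (x ∈ S))) / κ ≤ opt δ S := by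
        unfold opt
        apply le_csInf hne
        rintro c ⟨σ, hσ, rfl⟩
        rw [div_le_iff₀ hk, mul_comm]
        exact hR S hS σ hσ
      rw [div_le_iff₀ hk] at h2
      linarith [h2, mul_comm κ (opt δ S)]

end Pool.Agent.UTSP.DT
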