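import Pool.Agent.Work.MP_27a5a0_lc.DT.Stmts

/-!
MP_27a5a0_lc, block DT, item SL: choice of a radius.
-/

set_option autoImplicit false

namespace Pool.Agent.UTSP.DT

open Finset Pool.Agent.UTSP

namespace ISL

lemma one_le_pow_nr (θ : ℝ) (h : 1 ≤ θ) (n : ℕ) : 0 ≤ θ ^ n - 1 := by
  have := one_le_pow₀ h (n := n)
  linarith

/-- No radius reaches a point outside the largest ball. -/
lemma nr_zero (r : ℝ) (c : ℕ) (x : ℝ) (hr : 0 ≤ r) (hx : r < |x|) : nr r c x = 0 := by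
  unfold nr
  rw [Finset.card_eq_zero, Finset.filter_eq_empty_iff]
  intro s _ hs
  have h1 : r / 2 ^ s ≤ r := div_le_self hr (one_le_pow₀ (by norm_num))
  linarith

/-- A large number of lattice points. -/
lemma exists_T {J : Type} [Fintype J] (r : J → ℝ) (c : J → ℕ) (Δ : ℝ) (q : ℕ)
    (_hΔ : 0 < Δ) (hq : 1 ≤ q) (hr : ∀ j, 0 < c j → 0 < r j) :
    ∃ T : ℕ, 1 ≤ T ∧ ∀ j, ∀ s < c j, Δ / (8 * q * T) ≤ r j / 2 ^ s := by
  refine ⟨1 + ∑ j, ⌈Δ * 2 ^ (c j) / (8 * q * r j)⌉₊, by omega, ?_⟩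
  intro j s hs
  have hrj : 0 < r j := hr j (by omega)
  have hq' : (1 : ℝ) ≤ q := by exact_mod_cast hq
  have h1 : Δ * 2 ^ (c j) / (8 * q * r j) ≤
      ((1 + ∑ j, ⌈Δ * 2 ^ (c j) / (8 * q * r j)⌉₊ : ℕ) : ℝ) := by
    refine (Nat.le_ceil _).trans ?_
    have h2 : ⌈Δ * 2 ^ (c j) / (8 * q * r j)⌉₊ ≤
        1 + ∑ j, ⌈Δ * 2 ^ (c j) / (8 * q * r j)⌉₊ := by
      have := Finset.single_le_sum (f := fun j => ⌈Δ * 2 ^ (c j) / (8 * q * r j)⌉₊)
        (fun i _ => Nat.zero_le _) (Finset.mem_univ j)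
      omega
    exact_mod_cast h2
  set T : ℝ := ((1 + ∑ j, ⌈Δ * 2 ^ (c j) / (8 * q * r j)⌉₊ : ℕ) : ℝ) with hT
  have hT1 : (1 : ℝ) ≤ T := by
    rw [hT]
    push_cast
    have : (0 : ℝ) ≤ ∑ j, (⌈Δ * 2 ^ (c j) / (8 * q * r j)⌉₊ : ℝ) :=
      Finset.sum_nonneg (fun _ _ => Nat.cast_nonneg _)
    linarith
  have h8 : 0 < 8 * (q : ℝ) * T := by positivity
  have h3 : Δ / (8 * q * T) ≤ r j / 2 ^ (c j) := by
    rw [div_le_div_iff₀ h8 (by positivity)]
    rw [div_le_iff₀ (by positivity)] at h1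
    nlinarith
  refine h3.trans ?_
  apply div_le_div_of_nonneg_left hrj.le (by positivity)
  exact pow_le_pow_right₀ (by norm_num) hs.le

end ISL

theorem pr_SL (hGL : S_GL) (hCT : S_CT) : S_SL := by
  intro J _ a r θ g c Δ N q hΔ hq hN hNq hW hg
  obtain ⟨T, hT1, hT⟩ := ISL.exists_T r c Δ q hΔ hq (fun j => (hW j).2.2.2.1)
  have hq' : (1 : ℝ) ≤ q := by exact_mod_cast hq
  have hT' : (1 : ℝ) ≤ T := by exact_mod_cast hT1
  have hu : 0 < Δ / (8 * (q : ℝ) * T) := by positivity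
  have hr0 : ∀ j, 0 ≤ r j := fun j => (hW j).2.2.1
  obtain ⟨i, hi, hcost⟩ := hGL J a r (fun j => g j * eps q Δ (r j) / 4)
    (fun j x => g j * (θ j ^ nr (r j) (c j) (x - a j) - 1)) N q T (Δ / 4)
    (Δ / (8 * (q : ℝ) * T)) hu hT1 hq hN hNq
    (by
      intro j
      have h1 := hg j
      have h2 := hr0 j
      unfold eps
      positivity)
    hr0
    (by
      intro j
      have h1 := (hW j).2.2.2.2
      have h2 : (T : ℝ) * (Δ / (8 * (q : ℝ) * T)) = Δ / (8 * q) := by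
        field_simp
      rw [h2]
      refine (mul_le_mul_of_nonneg_left h1 (by norm_num)).trans ?_
      rw [← mul_div_assoc, div_le_div_iff₀ (by positivity) (by positivity)]
      nlinarith [mul_pos hΔ (lt_of_lt_of_le one_pos hq')])
    (by
      intro j x
      exact mul_nonneg (hg j) (ISL.one_le_pow_nr _ (hW j).1 _))
    (by
      intro j x hx
      rw [ISL.nr_zero (r j) (c j) (x - a j) (hr0 j) hx]
      simp)
    (by
      intro j b hb
      have h1 := hCT (θ j) (r j) (Δ / (8 * (q : ℝ) * T)) (a j)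
        (Δ / 4 + ((b * T : ℕ) : ℝ) * (Δ / (8 * (q : ℝ) * T))) (c j) T (hW j).1 (hW j).2.1 hu
        (hr0 j) (hT j)
      have h2 : ∑ t ∈ range T, g j * (θ j ^ nr (r j) (c j)
          (Δ / 4 + ((b * T + t : ℕ) : ℝ) * (Δ / (8 * (q : ℝ) * T)) - a j) - 1) =
          g j * ∑ t ∈ range T, (θ j ^ nr (r j) (c j)
            (Δ / 4 + ((b * T : ℕ) : ℝ) * (Δ / (8 * (q : ℝ) * T)) +
              (t : ℝ) * (Δ / (8 * (q : ℝ) * T)) - a j) - 1) := by
        rw [Finset.mul_sum]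
        apply Finset.sum_congr rfl
        intro t _
        have h3 : Δ / 4 + ((b * T + t : ℕ) : ℝ) * (Δ / (8 * (q : ℝ) * T)) - a j =
            Δ / 4 + ((b * T : ℕ) : ℝ) * (Δ / (8 * (q : ℝ) * T)) +
              (t : ℝ) * (Δ / (8 * (q : ℝ) * T)) - a j := by
          push_cast
          ring
        rw [h3]
      rw [h2]
      refine (mul_le_mul_of_nonneg_left h1 (hg j)).trans (le_of_eq ?_)
      unfold eps
      field_simp
      ring)
  refine ⟨Δ / 4 + (i : ℝ) * (Δ / (8 * (q : ℝ) * T)), ?_, ?_, hcost⟩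
  · have : 0 ≤ (i : ℝ) * (Δ / (8 * (q : ℝ) * T)) := by positivity
    linarith
  · have h1 : (i : ℝ) ≤ 2 * q * T := by
      have : i ≤ 2 * q * T := hi.le
      exact_mod_cast this
    have h2 : (i : ℝ) * (Δ / (8 * (q : ℝ) * T)) ≤ 2 * q * T * (Δ / (8 * (q : ℝ) * T)) :=
      mul_le_mul_of_nonneg_right h1 hu.le
    have h3 : 2 * (q : ℝ) * T * (Δ / (8 * (q : ℝ) * T)) = Δ / 4 := by
      field_simp
      ring
    rw [h3] at h2
    linarith

end Pool.Agent.UTSP.DT
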