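import Pool.Agent.Work.MP_27a5a0_lc.DT.Stmts

/-!
MP_27a5a0_lc, block DT, item SPL: effect of one split on `ee` and `bl`.
-/

set_option autoImplicit false

namespace Pool.Agent.UTSP.DT

open Finset Pool.Agent.UTSP

namespace ISPL

variable {X : Type}

theorem mem_bl [Fintype X] (δ : X → X → ℝ) (P : X → ℕ) (y : X) (t : ℝ) (b : ℕ) :
    b ∈ bl δ P y t ↔ ∃ z, δ y z ≤ t ∧ P z = b := by
  unfold bl
  simp only [mem_image, mem_filter, mem_univ, true_and]

theorem spl_of (δ : X → X → ℝ) (P : X → ℕ) (β M : ℕ) (c : X) (x : ℝ) (z : X)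
    (h : P z = β ∧ δ c z ≤ x) : spl δ P β c x M z = M := by
  unfold spl
  exact if_pos h

theorem spl_not (δ : X → X → ℝ) (P : X → ℕ) (β M : ℕ) (c : X) (x : ℝ) (z : X)
    (h : ¬ (P z = β ∧ δ c z ≤ x)) : spl δ P β c x M z = P z := by
  unfold spl
  exact if_neg h

theorem spl_M (δ : X → X → ℝ) (P : X → ℕ) (β M : ℕ) (c : X) (x : ℝ) (z : X)
    (hM : ∀ z, P z ≠ M) (h : spl δ P β c x M z = M) : P z = β ∧ δ c z ≤ x := by
  by_contra hn
  rw [spl_not δ P β M c x z hn] at h
  exact hM z h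

theorem spl_beta (δ : X → X → ℝ) (P : X → ℕ) (β M : ℕ) (c : X) (x : ℝ) (z : X)
    (hb : β ≠ M) (h : spl δ P β c x M z = β) : P z = β ∧ x < δ c z := by
  by_cases hn : P z = β ∧ δ c z ≤ x
  · rw [spl_of δ P β M c x z hn] at h
    exact absurd h.symm hb
  · rw [spl_not δ P β M c x z hn] at h
    refine ⟨h, ?_⟩
    by_contra hx
    exact hn ⟨h, not_lt.mp hx⟩

theorem sub1 [Fintype X] (δ : X → X → ℝ) (P : X → ℕ) (β M : ℕ) (c y : X) (x t : ℝ) :
    bl δ (spl δ P β c x M) y t ⊆ insert M (bl δ P y t) := by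
  intro b hb
  rw [mem_bl] at hb
  obtain ⟨z, hz, h⟩ := hb
  rw [mem_insert, mem_bl]
  by_cases hn : P z = β ∧ δ c z ≤ x
  · rw [spl_of δ P β M c x z hn] at h
    exact Or.inl h.symm
  · rw [spl_not δ P β M c x z hn] at h
    exact Or.inr ⟨z, hz, h⟩

theorem cardB [Fintype X] (δ : X → X → ℝ) (P : X → ℕ) (β M : ℕ) (c y : X) (x t : ℝ) :
    mm δ (spl δ P β c x M) y t ≤ mm δ P y t + 1 :=
  (card_le_card (sub1 δ P β M c y x t)).trans (card_insert_le _ _)

theorem cardM [Fintype X] (δ : X → X → ℝ) (P : X → ℕ) (β M : ℕ) (c y : X) (x t : ℝ)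
    (h : M ∉ bl δ (spl δ P β c x M) y t) :
    mm δ (spl δ P β c x M) y t ≤ mm δ P y t := by
  refine card_le_card ?_
  intro b hb
  have h1 := sub1 δ P β M c y x t hb
  rw [mem_insert] at h1
  rcases h1 with h1 | h1
  · rw [h1] at hb
    exact absurd hb h
  · exact h1

theorem cardbeta [Fintype X] (δ : X → X → ℝ) (P : X → ℕ) (β M : ℕ) (c y : X) (x t : ℝ)
    (hM : ∀ z, P z ≠ M) (h : β ∉ bl δ (spl δ P β c x M) y t) :
    mm δ (spl δ P β c x M) y t ≤ mm δ P y t := by
  by_cases hm : M ∈ bl δ (spl δ P β c x M) y t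
  · rw [mem_bl] at hm
    obtain ⟨z, hz, h1⟩ := hm
    have h2 := spl_M δ P β M c x z hM h1
    have hβ : β ∈ bl δ P y t := by
      rw [mem_bl]
      exact ⟨z, hz, h2.1⟩
    have hsub : bl δ (spl δ P β c x M) y t ⊆ insert M ((bl δ P y t).erase β) := by
      intro b hb
      have h3 := sub1 δ P β M c y x t hb
      rw [mem_insert] at h3 ⊢
      rcases h3 with h3 | h3
      · exact Or.inl h3
      · right
        rw [mem_erase]
        refine ⟨?_, h3⟩
        intro h4
        rw [h4] at hb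
        exact h hb
    calc mm δ (spl δ P β c x M) y t ≤ (insert M ((bl δ P y t).erase β)).card := card_le_card hsub
      _ ≤ ((bl δ P y t).erase β).card + 1 := card_insert_le _ _
      _ = (bl δ P y t).card := card_erase_add_one hβ
      _ = mm δ P y t := rfl
  · exact cardM δ P β M c y x t hm

theorem both [Fintype X] (δ : X → X → ℝ) (hδ : IsMet δ) (P : X → ℕ) (β M : ℕ) (c y : X)
    (x t : ℝ) (hM : ∀ z, P z ≠ M) (hb : β ≠ M)
    (h1 : M ∈ bl δ (spl δ P β c x M) y t) (h2 : β ∈ bl δ (spl δ P β c x M) y t) :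
    |x - δ c y| ≤ t := by
  rw [mem_bl] at h1 h2
  obtain ⟨z, hz, e1⟩ := h1
  obtain ⟨w, hw, e2⟩ := h2
  have a1 := (spl_M δ P β M c x z hM e1).2
  have a2 := (spl_beta δ P β M c x w hb e2).2
  have t1 := hδ.tri c z y
  have t2 := hδ.tri c y w
  have s1 := hδ.symm z y
  rw [abs_le]
  constructor <;> linarith

theorem rad_le (r : ℝ) (hr : 0 ≤ r) (s : ℕ) : r / 2 ^ s ≤ r :=
  div_le_self hr (one_le_pow₀ (by norm_num))

open Classical in
theorem nr_eq (r : ℝ) (k : ℕ) (x : ℝ) :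
    nr r k x = ∑ s ∈ range k, (if |x| ≤ r / 2 ^ s then 1 else 0) := by
  unfold nr
  exact card_filter _ _

theorem ball_mono [Fintype X] (δ : X → X → ℝ) (P : X → ℕ) (y : X) {t r : ℝ} (h : t ≤ r) (b : ℕ)
    (hb : b ∈ bl δ P y t) : b ∈ bl δ P y r := by
  rw [mem_bl] at hb ⊢
  obtain ⟨z, hz, e⟩ := hb
  exact ⟨z, hz.trans h, e⟩

end ISPL

open ISPL in
theorem pr_SPL : S_SPL := by
  intro X _ δ hδ P β M c y x r k hr hM hb
  refine ⟨?_, ?_, ?_, ?_⟩
  · rw [nr_eq]
    unfold ee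
    rw [← sum_add_distrib]
    refine sum_le_sum ?_
    intro s _
    by_cases hx : |x - δ c y| ≤ r / 2 ^ s
    · rw [if_pos hx]
      exact cardB δ P β M c y x _
    · rw [if_neg hx, add_zero]
      by_cases h1 : M ∈ bl δ (spl δ P β c x M) y (r / 2 ^ s)
      · refine cardbeta δ P β M c y x _ hM ?_
        intro h2
        exact hx (both δ hδ P β M c y x _ hM hb h1 h2)
      · exact cardM δ P β M c y x _ h1
  · intro h
    unfold ee
    refine sum_le_sum ?_
    intro s _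
    refine cardM δ P β M c y x _ ?_
    intro h1
    rw [mem_bl] at h1
    obtain ⟨z, hz, e1⟩ := h1
    have a1 := spl_M δ P β M c x z hM e1
    have hz' := hz.trans (rad_le r hr s)
    rcases h with h | h
    · refine h ?_
      rw [mem_bl]
      exact ⟨z, hz', a1.1⟩
    · have t1 := hδ.tri c z y
      have s1 := hδ.symm z y
      linarith [a1.2]
  · intro h
    have key : β ∉ bl δ (spl δ P β c x M) y r := by
      intro h1
      rw [mem_bl] at h1
      obtain ⟨z, hz, e1⟩ := h1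
      have a1 := (spl_beta δ P β M c x z hb e1).2
      have t1 := hδ.tri c y z
      linarith
    refine ⟨?_, key⟩
    unfold ee
    refine sum_le_sum ?_
    intro s _
    refine cardbeta δ P β M c y x _ hM ?_
    intro h2
    exact key (ball_mono δ _ y (rad_le r hr s) β h2)
  · intro h h1
    rw [mem_bl] at h1
    obtain ⟨z, hz, e1⟩ := h1
    refine h ?_
    rw [mem_bl]
    exact ⟨z, hz, (spl_beta δ P β M c x z hb e1).1⟩

end Pool.Agent.UTSP.DT
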