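import Pool.Agent.Work.MP_27a5a0_lc.DT.Stmts

/-!
MP_27a5a0_lc, block DT, item TO: the tour.
-/

set_option autoImplicit false

namespace Pool.Agent.UTSP.DT

open Finset Pool.Agent.UTSP

namespace ITO

/-- Switches of a list in which the blocks of `P` are contiguous. -/
theorem sw_le {X : Type} [DecidableEq X] (P : X → ℕ) (r : X → X → Prop)
    (hr : ∀ x y z, r x y → r y z → P x = P z → P y = P x) :
    ∀ l : List X, l.Pairwise r → sw P l ≤ (l.toFinset.image P).card
  | [], _ => by simp [sw]
  | [_], _ => by simp [sw]
  | x :: y :: l, h => by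
    have h' := List.pairwise_cons.1 h
    have ih := sw_le P r hr (y :: l) h'.2
    have hyl := List.pairwise_cons.1 h'.2
    rw [List.toFinset_cons, Finset.image_insert]
    by_cases hxy : P x = P y
    · have h0 : sw P (x :: y :: l) = sw P (y :: l) := by
        simp only [sw, hxy, if_true, zero_add]
      rw [h0]
      exact ih.trans (Finset.card_le_card (Finset.subset_insert _ _))
    · have h0 : sw P (x :: y :: l) = 1 + sw P (y :: l) := by
        simp only [sw, if_neg hxy]
      have hn : P x ∉ (y :: l).toFinset.image P := by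
        intro hm
        obtain ⟨z, hz, hzx⟩ := Finset.mem_image.1 hm
        rw [List.mem_toFinset] at hz
        rcases List.mem_cons.1 hz with rfl | hz
        · exact hxy hzx.symm
        · exact hxy (hr x y z (h'.1 y List.mem_cons_self) (hyl.1 z hz) hzx.symm).symm
      rw [h0, Finset.card_insert_of_notMem hn]
      omega

/-- Monotonicity of the partitions. -/
theorem mono {X : Type} (P : ℕ → X → ℕ) (h : ∀ k x y, P (k + 1) x = P (k + 1) y → P k x = P k y)
    {j k : ℕ} (hjk : j ≤ k) {x y : X} (hxy : P k x = P k y) : P j x = P j y := by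
  induction k, hjk using Nat.le_induction with
  | base => exact hxy
  | succ m _ ih => exact ih (h m x y hxy)

/-- The key of a point. -/
def key {X : Type} (T : ℕ) (P : ℕ → X → ℕ) (x : X) : Lex (Fin (T + 1) → ℕ) :=
  toLex (fun k : Fin (T + 1) => P k x)

theorem key_inj {X : Type} (T : ℕ) (P : ℕ → X → ℕ) (h : ∀ x y, P T x = P T y → x = y) :
    Function.Injective (key T P) := by
  intro x y hxy
  have h1 : (fun k : Fin (T + 1) => P k x) = (fun k : Fin (T + 1) => P k y) := toLex.injective hxy
  have h2 := congrFun h1 (Fin.last T)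
  exact h x y (by simpa using h2)

/-- Comparison of the coordinates. -/
theorem key_coord {X : Type} (T : ℕ) (P : ℕ → X → ℕ) {x y : X} (hxy : key T P x ≤ key T P y)
    (j : ℕ) (hj : j ≤ T) (hlt : ∀ i < j, P i x = P i y) : P j x ≤ P j y := by
  rcases hxy.lt_or_eq with hlt' | heq
  · obtain ⟨i, hi1, hi2⟩ := hlt'
    have hi2' : P i x < P i y := hi2
    have hi1' : ∀ k : Fin (T + 1), k < i → P k x = P k y := fun k hk => hi1 k hk
    rcases lt_trichotomy j (i : ℕ) with hji | hji | hji
    · have := hi1' ⟨j, by omega⟩ (by rw [Fin.lt_def]; exact hji)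
      exact le_of_eq this
    · rw [hji]; exact hi2'.le
    · have := hlt i hji
      omega
  · have h1 : (fun k : Fin (T + 1) => P k x) = (fun k : Fin (T + 1) => P k y) := toLex.injective heq
    have h2 := congrFun h1 ⟨j, by omega⟩
    exact le_of_eq h2

/-- Contiguity. -/
theorem contig {X : Type} (T : ℕ) (P : ℕ → X → ℕ)
    (h : ∀ k x y, P (k + 1) x = P (k + 1) y → P k x = P k y) (hT : ∀ x y, P T x = P T y → x = y)
    (k : ℕ) (x y z : X) (hxy : key T P x ≤ key T P y) (hyz : key T P y ≤ key T P z)
    (hxz : P k x = P k z) : P k y = P k x := by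
  rcases le_or_gt k T with hk | hk
  · have key : ∀ j, j ≤ k → P j y = P j x := by
      intro j
      induction j using Nat.strong_induction_on with
      | _ j ih =>
        intro hj
        have h1 : P j x ≤ P j y :=
          key_coord T P hxy j (hj.trans hk) (fun i hi => (ih i hi (by omega)).symm)
        have h2 : P j y ≤ P j z :=
          key_coord T P hyz j (hj.trans hk)
            (fun i hi => (ih i hi (by omega)).trans (mono P h (by omega : i ≤ k) hxz))
        have h3 : P j x = P j z := mono P h hj hxz
        omega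
    exact key k le_rfl
  · have h1 : x = z := hT x z (mono P h hk.le hxz)
    subst h1
    have h2 : ITO.key T P x = ITO.key T P y := le_antisymm hxy hyz
    rw [key_inj T P hT h2]

end ITO

open Classical in
/-- [TO] The tour. -/
theorem pr_TO : S_TO := by
  intro X _ _ T P h hT
  let r : X → X → Prop := fun x y => ITO.key T P x ≤ ITO.key T P y
  have : DecidableRel r := fun x y => Classical.propDecidable _
  have : IsTrans X r := ⟨fun a b c hab hbc => le_trans hab hbc⟩
  have : Std.Antisymm r := ⟨fun a b hab hba => ITO.key_inj T P hT (le_antisymm hab hba)⟩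
  have : Std.Total r := ⟨fun a b => le_total _ _⟩
  refine ⟨(univ : Finset X).sort r, ⟨Finset.sort_nodup _ _, Finset.sort_toFinset _ _⟩, ?_⟩
  intro S k
  have hs : (((univ : Finset X).sort r).filter (fun x => decide (x ∈ S))).Pairwise r :=
    (Finset.pairwise_sort _ _).filter _
  have h1 := ITO.sw_le (P k) r (fun x y z hxy hyz hxz => ITO.contig T P h hT k x y z hxy hyz hxz)
    _ hs
  refine h1.trans (Finset.card_le_card (Finset.image_subset_image ?_))
  intro x hx
  rw [List.mem_toFinset, List.mem_filter] at hx
  exact of_decide_eq_true hx.2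

end Pool.Agent.UTSP.DT
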