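import Pool.Agent.Work.MP_27a5a0_lc.DT.Stmts

/-!
MP_27a5a0_lc, block DT: item WK (walks).
-/

set_option autoImplicit false

namespace Pool.Agent.UTSP.DT

open Finset Pool.Agent.UTSP

namespace IWK

variable {X : Type}

theorem nonneg {δ : X → X → ℝ} (h : IsMet δ) (x y : X) : 0 ≤ δ x y := by
  by_cases hxy : x = y
  · subst hxy; exact (h.self x).ge
  · exact (h.pos x y hxy).le

theorem walk_nonneg {δ : X → X → ℝ} (h : IsMet δ) : ∀ l : List X, 0 ≤ walk δ l
  | [] => le_rfl
  | [_] => le_rfl
  | x :: y :: l => by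
      have h1 := nonneg h x y
      have h2 := walk_nonneg h (y :: l)
      simp only [walk]
      linarith

theorem wsum_nonneg {δ : X → X → ℝ} (h : IsMet δ) {f : X → ℝ} (hf : ∀ x, 0 ≤ f x) :
    ∀ l : List X, 0 ≤ wsum δ f l
  | [] => le_rfl
  | [_] => le_rfl
  | x :: y :: l => by
      have h1 := nonneg h x y
      have h2 := wsum_nonneg h hf (y :: l)
      have h3 := mul_nonneg h1 (add_nonneg (hf x) (hf y))
      simp only [wsum]
      linarith

theorem wsum_mono {δ : X → X → ℝ} (h : IsMet δ) {f g : X → ℝ} (hf : ∀ x, f x ≤ g x) :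
    ∀ l : List X, wsum δ f l ≤ wsum δ g l
  | [] => le_rfl
  | [_] => le_rfl
  | x :: y :: l => by
      have h1 := nonneg h x y
      have h2 := wsum_mono h hf (y :: l)
      have h3 := mul_le_mul_of_nonneg_left (add_le_add (hf x) (hf y)) h1
      simp only [wsum]
      linarith

theorem wsum_sum {δ : X → X → ℝ} {B : Type} (s : Finset B) (f : B → X → ℝ) :
    ∀ l : List X, ∑ b ∈ s, wsum δ (f b) l = wsum δ (fun x => ∑ b ∈ s, f b x) l
  | [] => by simp [wsum]
  | [_] => by simp [wsum]
  | x :: y :: l => by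
      simp only [wsum]
      rw [Finset.sum_add_distrib, wsum_sum s f (y :: l), ← Finset.mul_sum,
        Finset.sum_add_distrib]

theorem wsum_split {δ : X → X → ℝ} {f : X → ℝ} (p : X) (l2 : List X) :
    ∀ l1 : List X, wsum δ f (l1 ++ p :: l2) = wsum δ f (l1 ++ [p]) + wsum δ f (p :: l2)
  | [] => by simp [wsum]
  | [x] => by
      simp only [List.cons_append, List.nil_append, wsum]
      ring
  | x :: y :: l => by
      have h := wsum_split (δ := δ) (f := f) p l2 (y :: l)
      simp only [List.cons_append, wsum] at h ⊢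
      rw [h]
      ring

theorem wsum_last {δ : X → X → ℝ} {f : X → ℝ} (p q : X) (l1 : List X) :
    wsum δ f (l1 ++ [p, q]) = wsum δ f (l1 ++ [p]) + δ p q * (f p + f q) := by
  rw [wsum_split p [q] l1]
  simp [wsum]

theorem wsum_rev {δ : X → X → ℝ} (h : IsMet δ) {f : X → ℝ} :
    ∀ l : List X, wsum δ f l.reverse = wsum δ f l
  | [] => by simp [wsum]
  | [x] => by simp [wsum]
  | x :: y :: l => by
      have h1 := wsum_rev h (f := f) (y :: l)
      have h2 : (x :: y :: l).reverse = l.reverse ++ [y, x] := by simp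
      have h3 : (y :: l).reverse = l.reverse ++ [y] := by simp
      rw [h2, wsum_last, ← h3, h1]
      simp only [wsum]
      rw [h.symm y x]
      ring

/-- Along a list starting near `p`. -/
theorem along {δ : X → X → ℝ} (h : IsMet δ) (p : X) (ρ : ℝ) (f : X → ℝ) (hf0 : ∀ s, 0 ≤ f s)
    (hf : ∀ s, δ s p ≤ ρ → 1 ≤ f s) :
    ∀ (l : List X) (x : X) (t : ℝ), δ x p ≤ t → t ≤ ρ →
      min (ρ - t) (walk δ (x :: l)) ≤ wsum δ f (x :: l)
  | [], x, t, _, _ => by
      simp only [walk, wsum]
      exact min_le_right _ _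
  | y :: l, x, t, hx, ht => by
      have h1 := nonneg h x y
      have h2 := walk_nonneg h (y :: l)
      have hfx := hf x (hx.trans ht)
      have hfy := hf0 y
      have h3 : δ x y ≤ δ x y * (f x + f y) := by nlinarith
      have h4 : δ y p ≤ t + δ x y := by
        have := h.tri y x p
        rw [h.symm y x] at this
        linarith
      simp only [walk, wsum]
      by_cases ht' : t + δ x y ≤ ρ
      · have h5 := along h p ρ f hf0 hf l y (t + δ x y) h4 ht'
        rcases min_choice (ρ - (t + δ x y)) (walk δ (y :: l)) with h6 | h6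
        · rw [h6] at h5
          exact (min_le_left _ _).trans (by linarith)
        · rw [h6] at h5
          exact (min_le_right _ _).trans (by linarith)
      · have h5 := wsum_nonneg h hf0 (y :: l)
        push Not at ht'
        exact (min_le_left _ _).trans (by linarith)

/-- A walk is at least as long as the distance from its first point to any of its points. -/
theorem walk_ge {δ : X → X → ℝ} (h : IsMet δ) :
    ∀ (l : List X) (x z : X), z ∈ x :: l → δ x z ≤ walk δ (x :: l)
  | [], x, z, hz => by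
      simp only [List.mem_singleton] at hz
      subst hz
      simp only [walk]
      exact (h.self z).le
  | y :: l, x, z, hz => by
      rcases List.mem_cons.1 hz with hz | hz
      · subst hz
        rw [h.self z]
        exact walk_nonneg h _
      · have h1 := walk_ge h l y z hz
        have h2 := h.tri x y z
        simp only [walk]
        linarith

/-- The claim for one point `p`. -/
theorem claim {δ : X → X → ℝ} (h : IsMet δ) (σ : List X) (p a b : X) (ρ : ℝ) (hρ : 0 < ρ)
    (hp : p ∈ σ) (ha : a ∈ σ) (hb : b ∈ σ) (hab : 2 * ρ ≤ δ a b) (f : X → ℝ)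
    (hf0 : ∀ s, 0 ≤ f s) (hf : ∀ s, δ s p ≤ ρ → 1 ≤ f s) : ρ ≤ wsum δ f σ := by
  obtain ⟨l1, l2, rfl⟩ := List.append_of_mem hp
  have hpp : δ p p ≤ 0 := (h.self p).le
  have h1 := along h p ρ f hf0 hf l2 p 0 hpp hρ.le
  have h2 := along h p ρ f hf0 hf l1.reverse p 0 hpp hρ.le
  have h3 : wsum δ f (l1 ++ [p]) = wsum δ f (p :: l1.reverse) := by
    rw [← wsum_rev h (l1 ++ [p])]
    simp
  have h1' := wsum_nonneg h hf0 (p :: l2)
  have h2' := wsum_nonneg h hf0 (p :: l1.reverse)
  rw [wsum_split, h3]
  rw [sub_zero] at h1 h2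
  by_cases c1 : ρ ≤ walk δ (p :: l2)
  · rw [min_eq_left c1] at h1
    linarith
  by_cases c2 : ρ ≤ walk δ (p :: l1.reverse)
  · rw [min_eq_left c2] at h2
    linarith
  exfalso
  push Not at c1 c2
  have key : ∀ z ∈ l1 ++ p :: l2, δ p z < ρ := by
    intro z hz
    rcases List.mem_append.1 hz with hz | hz
    · have := walk_ge h l1.reverse p z (List.mem_cons_of_mem _ (List.mem_reverse.2 hz))
      linarith
    · have := walk_ge h l2 p z hz
      linarith
  have ha' := key a ha
  have hb' := key b hb
  have := h.tri a p b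
  rw [h.symm a p] at this
  linarith

end IWK

open Classical in
theorem pr_WK : S_WK := by
  intro X _ _ δ h σ S hS P ρ hρ hab
  obtain ⟨a, ha, b, hb, hab⟩ := hab
  have hmem : ∀ z, z ∈ S → z ∈ σ := by
    intro z hz
    rw [← hS.2] at hz
    exact List.mem_toFinset.1 hz
  have hpex : ∀ β : ℕ, ∃ p : X, β ∈ S.image P → p ∈ S ∧ P p = β := by
    intro β
    by_cases hβ : β ∈ S.image P
    · obtain ⟨p, hp, hpβ⟩ := Finset.mem_image.1 hβ
      exact ⟨p, fun _ => ⟨hp, hpβ⟩⟩
    · exact ⟨a, fun h => absurd h hβ⟩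
  choose p hp using hpex
  have h1 : ∀ β ∈ S.image P,
      ρ ≤ wsum δ (fun s => if δ s (p β) ≤ ρ then (1 : ℝ) else 0) σ := by
    intro β hβ
    refine IWK.claim h σ (p β) a b ρ hρ (hmem _ (hp β hβ).1) (hmem _ ha) (hmem _ hb) hab _ ?_ ?_
    · intro s
      split_ifs
      · exact zero_le_one
      · exact le_rfl
    · intro s hs
      rw [if_pos hs]
  calc ((S.image P).card : ℝ) * ρ = ∑ β ∈ S.image P, ρ := by
        rw [Finset.sum_const, nsmul_eq_mul]
    _ ≤ ∑ β ∈ S.image P, wsum δ (fun s => if δ s (p β) ≤ ρ then (1 : ℝ) else 0) σ :=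
        Finset.sum_le_sum h1
    _ = wsum δ (fun s => ∑ β ∈ S.image P, if δ s (p β) ≤ ρ then (1 : ℝ) else 0) σ :=
        IWK.wsum_sum _ _ _
    _ ≤ wsum δ (fun s => (mm δ P s ρ : ℝ)) σ := by
        refine IWK.wsum_mono h ?_ σ
        intro s
        rw [Finset.sum_ite, Finset.sum_const_zero, add_zero, Finset.sum_const, nsmul_eq_mul,
          mul_one]
        have : (S.image P).filter (fun β => δ s (p β) ≤ ρ) ⊆ bl δ P s ρ := by
          intro β hβ
          rw [Finset.mem_filter] at hβ
          unfold bl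
          rw [Finset.mem_image]
          refine ⟨p β, ?_, (hp β hβ.1).2⟩
          rw [Finset.mem_filter]
          exact ⟨Finset.mem_univ _, hβ.2⟩
        have h2 := Finset.card_le_card this
        unfold mm
        exact_mod_cast h2

end Pool.Agent.UTSP.DT
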