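import Pool.Agent.Work.MP_27a5a0_lc.DT.I_CO

/-!
MP_27a5a0_lc, block DT: cost of the restricted tour for the snowflake `δ ^ α`, `0 < α ≤ 1`.
-/

set_option autoImplicit false

namespace Pool.Agent.UTSP.DT

open Finset Pool.Agent.UTSP

/-- The snowflake of a metric. -/
noncomputable def sf {X : Type} (δ : X → X → ℝ) (α : ℝ) (x y : X) : ℝ := δ x y ^ α

namespace ICOa

open ICO

variable {X : Type} {δ : X → X → ℝ}

lemma sf_met (hδ : IsMet δ) {α : ℝ} (h0 : 0 < α) (h1 : α ≤ 1) : IsMet (sf δ α) where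
  self x := by
    unfold sf
    rw [hδ.self, Real.zero_rpow h0.ne']
  pos x y hxy := Real.rpow_pos_of_pos (hδ.pos x y hxy) α
  symm x y := by
    unfold sf
    rw [hδ.symm]
  tri x y z := by
    unfold sf
    have h2 : δ x z ^ α ≤ (δ x y + δ y z) ^ α :=
      Real.rpow_le_rpow (met_nonneg hδ x z) (hδ.tri x y z) h0.le
    exact h2.trans (Real.rpow_add_le_add_rpow (met_nonneg hδ x y) (met_nonneg hδ y z) h0.le h1)

/-- `2 ^ α ≤ 2` -/
lemma two_rpow_le {α : ℝ} (h1 : α ≤ 1) : (2 : ℝ) ^ α ≤ 2 := by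
  have h := Real.rpow_le_rpow_of_exponent_le (by norm_num : (1 : ℝ) ≤ 2) h1
  rwa [Real.rpow_one] at h

/-- `α / 2 ≤ 2 ^ α - 1` -/
lemma two_rpow_ge {α : ℝ} (h0 : 0 < α) : α / 2 ≤ (2 : ℝ) ^ α - 1 := by
  rw [Real.rpow_def_of_pos (by norm_num : (0 : ℝ) < 2)]
  have h1 := Real.add_one_le_exp (Real.log 2 * α)
  have h2 : (0.69 : ℝ) < Real.log 2 := lt_trans (by norm_num) Real.log_two_gt_d9
  nlinarith

/-- `u_k = (D / 2 ^ k) ^ α` -/
lemma u_succ (D α : ℝ) (hD : 0 < D) (k : ℕ) :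
    (D / 2 ^ k) ^ α = 2 ^ α * (D / 2 ^ (k + 1)) ^ α := by
  rw [← Real.mul_rpow (by norm_num) (by positivity)]
  congr 1
  rw [pow_succ]
  field_simp

lemma tail (D α : ℝ) (hD : 0 < D) (m T : ℕ) (h : m ≤ T) :
    (2 ^ α - 1) * ∑ k ∈ Ioc m T, (D / 2 ^ k) ^ α = (D / 2 ^ m) ^ α - (D / 2 ^ T) ^ α := by
  induction T, h using Nat.le_induction with
  | base => simp
  | succ T hT ih =>
    rw [Finset.sum_Ioc_succ_top hT, mul_add, ih, u_succ D α hD T]
    ring

lemma tail_le (D α : ℝ) (hD : 0 < D) (h0 : 0 < α) (m T : ℕ) :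
    ∑ k ∈ Ioc m T, (D / 2 ^ k) ^ α ≤ 2 / α * (D / 2 ^ m) ^ α := by
  rcases le_total m T with h | h
  · have h1 := tail D α hD m T h
    have h2 := two_rpow_ge h0
    have h3 : 0 ≤ ∑ k ∈ Ioc m T, (D / 2 ^ k) ^ α := by
      apply Finset.sum_nonneg
      intro k _
      positivity
    have h4 : 0 ≤ (D / 2 ^ T) ^ α := by positivity
    have h5 : α / 2 * ∑ k ∈ Ioc m T, (D / 2 ^ k) ^ α ≤ (D / 2 ^ m) ^ α := by
      have := mul_le_mul_of_nonneg_right h2 h3
      linarith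
    rw [div_mul_eq_mul_div, le_div_iff₀ h0]
    linarith
  · rw [Finset.Ioc_eq_empty_of_le h]
    simp only [Finset.sum_empty]
    positivity

/-- `u_(ks+L) = 2 ^ (- α L) u_ks` -/
lemma u_shift (D α : ℝ) (hD : 0 < D) (ks L : ℕ) :
    2 ^ (α * L) * (D / 2 ^ (ks + L)) ^ α = (D / 2 ^ ks) ^ α := by
  induction L with
  | zero => simp
  | succ L ih =>
    rw [← ih, u_succ D α hD (ks + L)]
    push_cast
    rw [mul_add, mul_one, Real.rpow_add (by norm_num : (0 : ℝ) < 2)]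
    rw [show ks + (L + 1) = ks + L + 1 from rfl]
    ring

lemma mm_sf_le [Fintype X] (hδ : IsMet δ) {α : ℝ} (h0 : 0 < α) (P : X → ℕ) (y : X) {r t : ℝ}
    (hr : 0 ≤ r) (ht : t ≤ r ^ α) : mm (sf δ α) P y t ≤ mm δ P y r := by
  unfold mm bl
  refine Finset.card_le_card (Finset.image_subset_image ?_)
  intro x hx
  rw [Finset.mem_filter] at hx ⊢
  refine ⟨hx.1, ?_⟩
  have h1 : δ y x ^ α ≤ r ^ α := hx.2.trans ht
  exact (Real.rpow_le_rpow_iff (met_nonneg hδ y x) hr h0).mp h1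

end ICOa

open ICO ICOa in
theorem pr_COa (hWK : S_WK) (X : Type) [Fintype X] [DecidableEq X] (δ : X → X → ℝ)
    (hδ : IsMet δ) (α : ℝ) (h0 : 0 < α) (h1 : α ≤ 1) (D ρ A : ℝ)
    (T L ks : ℕ) (P : ℕ → X → ℕ) (τ σ : List X) (S : Finset X) (hD : 0 < D) (hρ : 0 < ρ)
    (hP0 : ∀ x y, P 0 x = P 0 y) (hPs : ∀ k x y, P (k + 1) x = P (k + 1) y → P k x = P k y)
    (hPd : ∀ k x y, P k x = P k y → δ x y ≤ D / 2 ^ k) (hPT : ∀ x y, P T x = P T y → x = y)
    (hks : ks ≤ T)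
    (hsw : ∀ k, sw (P k) (τ.filter (fun x => decide (x ∈ S))) ≤ (S.image (P k)).card)
    (hSL : (S.card : ℝ) ≤ 2 ^ (α * L)) (hσ : IsOrd S σ)
    (hlt : ∀ x ∈ S, ∀ y ∈ S, δ x y < 2 * (D / 2 ^ ks))
    (hex : ∃ a ∈ S, ∃ b ∈ S, D / 2 ^ ks ≤ δ a b)
    (hA : ∀ y ∈ S, ∑ k ∈ Icc ks (ks + L), (mm δ (P k) y (ρ * (D / 2 ^ k)) : ℝ) ≤ A) :
    cyc (sf δ α) (τ.filter (fun x => decide (x ∈ S))) ≤
      (4 * A / min (ρ ^ α) (1 / 2) + 4 / α + 2) * cyc (sf δ α) σ := by
  obtain ⟨a, ha, b, hb, hab⟩ := hex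
  have hmet := sf_met hδ h0 h1
  have hΔpos : ∀ k : ℕ, 0 < D / 2 ^ k := fun k => by positivity
  have hupos : ∀ k : ℕ, 0 < (D / 2 ^ k) ^ α := fun k => by positivity
  have hmono : ∀ j k : ℕ, j ≤ k → D / 2 ^ k ≤ D / 2 ^ j := by
    intro j k hjk
    apply div_le_div_of_nonneg_left hD.le (by positivity)
    exact pow_le_pow_right₀ (by norm_num) hjk
  have h2α := two_rpow_le h1
  have h2u : ∀ k : ℕ, (2 * (D / 2 ^ k)) ^ α ≤ 2 * (D / 2 ^ k) ^ α := by
    intro k
    rw [Real.mul_rpow (by norm_num) (hΔpos k).le]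
    exact mul_le_mul_of_nonneg_right h2α (hupos k).le
  -- labels separate for ever
  have hPmono : ∀ x y : X, ∀ j k : ℕ, j ≤ k → P k x = P k y → P j x = P j y := by
    intro x y j k hjk
    induction k, hjk using Nat.le_induction with
    | base => exact id
    | succ k _ ih => exact fun h => ih (hPs k x y h)
  -- pointwise inequality
  have hpt : ∀ x ∈ S, ∀ y ∈ S, sf δ α x y ≤ ∑ k ∈ Icc ks T,
      (2 * (D / 2 ^ k) ^ α) * (if P k x = P k y then 0 else 1) := by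
    intro x hx y hy
    have hnn : ∀ k ∈ Icc ks T, 0 ≤ (2 * (D / 2 ^ k) ^ α) * (if P k x = P k y then (0 : ℝ) else 1) := by
      intro k _
      have := hupos k
      split_ifs <;> simp <;> positivity
    by_cases hxy : x = y
    · rw [hxy, hmet.self]
      rw [hxy] at hnn
      exact Finset.sum_nonneg hnn
    · have hexk : ∃ k, P k x ≠ P k y := ⟨T, fun h => hxy (hPT x y h)⟩
      classical
      set k0 := Nat.find hexk with hk0
      have hk0s : P k0 x ≠ P k0 y := Nat.find_spec hexk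
      have hk0T : k0 ≤ T := Nat.find_min' hexk (fun h => hxy (hPT x y h))
      have hk0pos : k0 ≠ 0 := by
        intro h
        rw [h] at hk0s
        exact hk0s (hP0 x y)
      by_cases hle : ks ≤ k0
      · have hmem : k0 ∈ Icc ks T := Finset.mem_Icc.mpr ⟨hle, hk0T⟩
        refine le_trans ?_ (Finset.single_le_sum hnn hmem)
        rw [if_neg hk0s, mul_one]
        obtain ⟨j, hj⟩ := Nat.exists_eq_succ_of_ne_zero hk0pos
        have hjP : P j x = P j y := by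
          by_contra hcon
          have := Nat.find_min' hexk hcon
          omega
        have h3 := hPd j x y hjP
        have h4 : D / 2 ^ j = 2 * (D / 2 ^ k0) := by
          rw [hj, Nat.succ_eq_add_one, pow_succ]
          field_simp
        rw [h4] at h3
        exact (Real.rpow_le_rpow (met_nonneg hδ x y) h3 h0.le).trans (h2u k0)
      · have hmem : ks ∈ Icc ks T := Finset.mem_Icc.mpr ⟨le_rfl, hks⟩
        refine le_trans ?_ (Finset.single_le_sum hnn hmem)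
        have hne : P ks x ≠ P ks y := fun h => hk0s (hPmono x y k0 ks (by omega) h)
        rw [if_neg hne, mul_one]
        exact (Real.rpow_le_rpow (met_nonneg hδ x y) (hlt x hx y hy).le h0.le).trans (h2u ks)
  -- the restricted tour
  set l := τ.filter (fun x => decide (x ∈ S)) with hl
  have hlS : ∀ x ∈ l, x ∈ S := by
    intro x hx
    have := (List.mem_filter.mp hx).2
    simpa using this
  have hw1 : walk (sf δ α) l ≤ ∑ k ∈ Icc ks T, (2 * (D / 2 ^ k) ^ α) * ((S.image (P k)).card : ℝ) := by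
    refine (walk_le_sum (Icc ks T) (fun k => 2 * (D / 2 ^ k) ^ α) P S hpt l hlS).trans ?_
    apply Finset.sum_le_sum
    intro k _
    apply mul_le_mul_of_nonneg_left
    · exact_mod_cast hsw k
    · have := hupos k
      positivity
  have hsub : Icc ks T ⊆ Icc ks (ks + L) ∪ Ioc (ks + L) T := by
    intro k hk
    rw [Finset.mem_Icc] at hk
    rw [Finset.mem_union, Finset.mem_Icc, Finset.mem_Ioc]
    omega
  have hdis : Disjoint (Icc ks (ks + L)) (Ioc (ks + L) T) := by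
    rw [Finset.disjoint_left]
    intro k hk hk'
    rw [Finset.mem_Icc] at hk
    rw [Finset.mem_Ioc] at hk'
    omega
  have hw2 : ∑ k ∈ Icc ks T, (2 * (D / 2 ^ k) ^ α) * ((S.image (P k)).card : ℝ) ≤
      ∑ k ∈ Icc ks (ks + L), (2 * (D / 2 ^ k) ^ α) * ((S.image (P k)).card : ℝ) +
      ∑ k ∈ Ioc (ks + L) T, (2 * (D / 2 ^ k) ^ α) * ((S.image (P k)).card : ℝ) := by
    rw [← Finset.sum_union hdis]
    apply Finset.sum_le_sum_of_subset_of_nonneg hsub
    intro k _ _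
    have := hupos k
    positivity
  -- the tail
  have hw3 : ∑ k ∈ Ioc (ks + L) T, (2 * (D / 2 ^ k) ^ α) * ((S.image (P k)).card : ℝ) ≤
      4 / α * (D / 2 ^ ks) ^ α := by
    have h3 : ∑ k ∈ Ioc (ks + L) T, (2 * (D / 2 ^ k) ^ α) * ((S.image (P k)).card : ℝ) ≤
        ∑ k ∈ Ioc (ks + L) T, (2 * 2 ^ (α * L)) * (D / 2 ^ k) ^ α := by
      apply Finset.sum_le_sum
      intro k _
      have hc : ((S.image (P k)).card : ℝ) ≤ 2 ^ (α * L) := by
        refine le_trans ?_ hSL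
        exact_mod_cast Finset.card_image_le
      have := mul_le_mul_of_nonneg_left hc (by have := hupos k; positivity : 0 ≤ 2 * (D / 2 ^ k) ^ α)
      linarith
    refine h3.trans ?_
    rw [← Finset.mul_sum]
    have h4 := mul_le_mul_of_nonneg_left (ICOa.tail_le D α hD h0 (ks + L) T)
      (by positivity : (0 : ℝ) ≤ 2 * 2 ^ (α * L))
    refine h4.trans (le_of_eq ?_)
    rw [← u_shift D α hD ks L]
    ring
  -- the main part
  obtain ⟨ρ', hρ'⟩ : ∃ ρ' : ℝ, ρ' = min (ρ ^ α) (1 / 2) := ⟨_, rfl⟩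
  have hρ0 : 0 < ρ' := by
    rw [hρ']
    exact lt_min (by positivity) (by norm_num)
  have hρ1 : ρ' ≤ ρ ^ α := by
    rw [hρ']
    exact min_le_left _ _
  have hρ2 : ρ' ≤ 1 / 2 := by
    rw [hρ']
    exact min_le_right _ _
  rw [← hρ']
  have hAnn : 0 ≤ A := by
    refine le_trans ?_ (hA a ha)
    apply Finset.sum_nonneg
    intro k _
    positivity
  have hσS : ∀ s ∈ σ, s ∈ S := by
    intro s hs
    rw [← hσ.2]
    exact List.mem_toFinset.mpr hs
  have hSσ : ∀ s ∈ S, s ∈ σ := by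
    intro s hs
    rw [← hσ.2] at hs
    exact List.mem_toFinset.mp hs
  have huab : (D / 2 ^ ks) ^ α ≤ sf δ α a b := Real.rpow_le_rpow (hΔpos ks).le hab h0.le
  have hw4 : ∑ k ∈ Icc ks (ks + L), (2 * (D / 2 ^ k) ^ α) * ((S.image (P k)).card : ℝ) ≤
      4 * A / ρ' * walk (sf δ α) σ := by
    have h3 : ∀ k ∈ Icc ks (ks + L), ((S.image (P k)).card : ℝ) * (ρ' * (D / 2 ^ k) ^ α) ≤
        wsum (sf δ α) (fun s => (mm (sf δ α) (P k) s (ρ' * (D / 2 ^ k) ^ α) : ℝ)) σ := by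
      intro k hk
      rw [Finset.mem_Icc] at hk
      apply hWK X (sf δ α) hmet σ S hσ (P k) (ρ' * (D / 2 ^ k) ^ α) (mul_pos hρ0 (hupos k))
      refine ⟨a, ha, b, hb, ?_⟩
      have h4 : (D / 2 ^ k) ^ α ≤ (D / 2 ^ ks) ^ α :=
        Real.rpow_le_rpow (hΔpos k).le (hmono ks k hk.1) h0.le
      have h5 := hupos k
      nlinarith
    have h4 := Finset.sum_le_sum h3
    have h5 := wsum_le hmet (Icc ks (ks + L))
      (fun k s => (mm (sf δ α) (P k) s (ρ' * (D / 2 ^ k) ^ α) : ℝ)) A σ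
      (fun s hs => by
        refine le_trans (Finset.sum_le_sum fun k _ => ?_) (hA s (hσS s hs))
        have h6 : ρ' * (D / 2 ^ k) ^ α ≤ (ρ * (D / 2 ^ k)) ^ α := by
          rw [Real.mul_rpow hρ.le (hΔpos k).le]
          exact mul_le_mul_of_nonneg_right hρ1 (hupos k).le
        exact_mod_cast mm_sf_le hδ h0 (P k) s (mul_pos hρ (hΔpos k)).le h6)
    have h6 : ∑ k ∈ Icc ks (ks + L), (2 * (D / 2 ^ k) ^ α) * ((S.image (P k)).card : ℝ) =
        2 / ρ' * ∑ k ∈ Icc ks (ks + L), ((S.image (P k)).card : ℝ) * (ρ' * (D / 2 ^ k) ^ α) := by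
      rw [Finset.mul_sum]
      apply Finset.sum_congr rfl
      intro k _
      field_simp
    rw [h6]
    have h7 := mul_le_mul_of_nonneg_left (h4.trans h5) (by positivity : 0 ≤ 2 / ρ')
    refine h7.trans (le_of_eq ?_)
    field_simp
    ring
  have hwab : (D / 2 ^ ks) ^ α ≤ walk (sf δ α) σ :=
    huab.trans (pair_le hmet σ a (hSσ a ha) b (hSσ b hb))
  have hcyc := walk_le_cyc hmet σ
  have hl2 := cyc_le hmet (2 * (D / 2 ^ ks) ^ α) (by have := hupos ks; positivity) l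
    (fun x hx y hy => (Real.rpow_le_rpow (met_nonneg hδ x y) (hlt x (hlS x hx) y (hlS y hy)).le
      h0.le).trans (h2u ks))
  have hcoef : 0 ≤ 4 * A / ρ' + 4 / α + 2 := by positivity
  have hfin := mul_le_mul_of_nonneg_left hcyc hcoef
  refine le_trans ?_ hfin
  have hexp : (4 * A / ρ' + 4 / α + 2) * walk (sf δ α) σ
      = 4 * A / ρ' * walk (sf δ α) σ + 4 / α * walk (sf δ α) σ + 2 * walk (sf δ α) σ := by ring
  rw [hexp]
  have h8 : 4 / α * (D / 2 ^ ks) ^ α ≤ 4 / α * walk (sf δ α) σ :=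
    mul_le_mul_of_nonneg_left hwab (by positivity)
  linarith

end Pool.Agent.UTSP.DT
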