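import Pool.Agent.Work.MP_27a5a0_lc.Defs

/-!
MP_27a5a0_lc, block DT: universal TSP in metric spaces of doubling dimension `d`,
ratio `O(d log n)` (note 4522).  Definitions.
-/

set_option autoImplicit false

namespace Pool.Agent.UTSP.DT

open Finset Pool.Agent.UTSP

variable {X : Type}

/-- Every ball of radius `r` is covered by `K` balls of radius `r / 2`. -/
def Doubling (δ : X → X → ℝ) (K : ℕ) : Prop :=
  ∀ (x : X) (r : ℝ), 0 < r → ∃ A : Finset X, A.card ≤ K ∧ ∀ y, δ x y ≤ r → ∃ a ∈ A, δ a y ≤ r / 2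

open Classical in
/-- Labels of the blocks of the partition `P` (given by labels) meeting the closed ball of
radius `r` around `y`. -/
noncomputable def bl [Fintype X] (δ : X → X → ℝ) (P : X → ℕ) (y : X) (r : ℝ) : Finset ℕ :=
  (univ.filter (fun x => δ y x ≤ r)).image P

/-- Number of blocks of `P` meeting the closed ball of radius `r` around `y`. -/
noncomputable def mm [Fintype X] (δ : X → X → ℝ) (P : X → ℕ) (y : X) (r : ℝ) : ℕ :=
  (bl δ P y r).card

/-- Total number of blocks of `P` met by the balls of radii `r / 2 ^ s`, `s < c`, around `y`. -/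
noncomputable def ee [Fintype X] (δ : X → X → ℝ) (P : X → ℕ) (y : X) (r : ℝ) (c : ℕ) : ℕ :=
  ∑ s ∈ range c, mm δ P y (r / 2 ^ s)

open Classical in
/-- Number of the radii `r / 2 ^ s`, `s < c`, that are at least `|x|`. -/
noncomputable def nr (r : ℝ) (c : ℕ) (x : ℝ) : ℕ :=
  ((range c).filter (fun s => |x| ≤ r / 2 ^ s)).card

/-- The error `ε` of a window of largest radius `r` at scale `Δ` (net size at most `4 ^ q`). -/
noncomputable def eps (q : ℕ) (Δ r : ℝ) : ℝ := 1536 * q * r / Δ

/-- Admissible windows at scale `Δ`: largest radius `r`, number of radii `c`, base `θ`. -/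
def OKW {W : Type} (Δ : ℝ) (q : ℕ) (r : W → ℝ) (c : W → ℕ) (θ : W → ℝ) : Prop :=
  ∀ w, 1 ≤ θ w ∧ θ w ≤ 5 / 3 ∧ 0 ≤ r w ∧ (0 < c w → 0 < r w) ∧ r w ≤ Δ / (32768 * q)

open Classical in
/-- Number of centers of the list within `Δ` of `y`. -/
noncomputable def nc (δ : X → X → ℝ) (Δ : ℝ) (cs : List X) (y : X) : ℕ :=
  cs.countP (fun c => decide (δ c y ≤ Δ))

open Classical in
/-- Split the block with label `β` by the ball of radius `x` around `c`; the part in the ball gets
the new label `M`. -/
noncomputable def spl (δ : X → X → ℝ) (P : X → ℕ) (β : ℕ) (c : X) (x : ℝ) (M : ℕ) : X → ℕ :=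
  fun z => if P z = β ∧ δ c z ≤ x then M else P z

/-- Number of consecutive pairs of the list with different labels. -/
def sw (P : X → ℕ) : List X → ℕ
  | [] => 0
  | [_] => 0
  | x :: y :: l => (if P x = P y then 0 else 1) + sw P (y :: l)

/-- Sum over the consecutive pairs `x, y` of `δ x y * (f x + f y)`. -/
noncomputable def wsum (δ : X → X → ℝ) (f : X → ℝ) : List X → ℝ
  | [] => 0
  | [_] => 0
  | x :: y :: l => δ x y * (f x + f y) + wsum δ f (y :: l)

end Pool.Agent.UTSP.DT
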