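import Pool.Agent.Work.MP_27a5a0_lc.DT.Stmts

/-!
MP_27a5a0_lc, block DT, item CO: cost of the restricted tour.
-/

set_option autoImplicit false

namespace Pool.Agent.UTSP.DT

open Finset Pool.Agent.UTSP

namespace ICO

variable {X : Type} {δ : X → X → ℝ}

lemma met_nonneg (hδ : IsMet δ) (x y : X) : 0 ≤ δ x y := by
  by_cases h : x = y
  · rw [h, hδ.self]
  · exact (hδ.pos x y h).le

lemma walk_nonneg (hδ : IsMet δ) : ∀ l : List X, 0 ≤ walk δ l
  | [] => le_rfl
  | [_] => le_rfl
  | x :: y :: l => add_nonneg (met_nonneg hδ x y) (walk_nonneg hδ (y :: l))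

lemma head_le (hδ : IsMet δ) (l : List X) : ∀ x : X, ∀ b ∈ x :: l, δ x b ≤ walk δ (x :: l) := by
  induction l with
  | nil =>
    intro x b hb
    rw [List.mem_singleton.mp hb, hδ.self]
    exact le_rfl
  | cons y l ih =>
    intro x b hb
    rcases List.mem_cons.mp hb with h | h
    · rw [h, hδ.self]
      exact walk_nonneg hδ _
    · have h1 := ih y b h
      have h2 := hδ.tri x y b
      show δ x b ≤ δ x y + walk δ (y :: l)
      linarith

lemma pair_le (hδ : IsMet δ) (l : List X) : ∀ a ∈ l, ∀ b ∈ l, δ a b ≤ walk δ l := by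
  induction l with
  | nil =>
    intro a ha
    exact absurd ha List.not_mem_nil
  | cons x l ih =>
    intro a ha b hb
    rcases List.mem_cons.mp ha with h | h
    · rw [h]
      exact head_le hδ l x b hb
    · rcases List.mem_cons.mp hb with h' | h'
      · rw [h', hδ.symm]
        exact head_le hδ l x a ha
      · refine (ih a h b h').trans ?_
        match l with
        | [] => exact absurd h List.not_mem_nil
        | y :: l' =>
          show walk δ (y :: l') ≤ δ x y + walk δ (y :: l')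
          linarith [met_nonneg hδ x y]

lemma walk_snoc (z : X) (l : List X) : ∀ x : X, ∃ y ∈ x :: l,
    walk δ (x :: (l ++ [z])) = walk δ (x :: l) + δ y z := by
  induction l with
  | nil =>
    intro x
    refine ⟨x, List.mem_singleton.mpr rfl, ?_⟩
    show δ x z + 0 = 0 + δ x z
    ring
  | cons w l ih =>
    intro x
    obtain ⟨y, hy, h⟩ := ih w
    refine ⟨y, List.mem_cons_of_mem _ hy, ?_⟩
    show δ x w + walk δ (w :: (l ++ [z])) = (δ x w + walk δ (w :: l)) + δ y z
    rw [h]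
    ring

lemma walk_le_cyc (hδ : IsMet δ) (σ : List X) : walk δ σ ≤ cyc δ σ := by
  match σ with
  | [] => exact le_rfl
  | x :: l =>
    obtain ⟨y, _, h⟩ := walk_snoc (δ := δ) x l x
    show walk δ (x :: l) ≤ walk δ (x :: (l ++ [x]))
    rw [h]
    linarith [met_nonneg hδ y x]

lemma cyc_le (hδ : IsMet δ) (M : ℝ) (hM0 : 0 ≤ M) (σ : List X) (hM : ∀ x ∈ σ, ∀ y ∈ σ, δ x y ≤ M) :
    cyc δ σ ≤ walk δ σ + M := by
  match σ with
  | [] =>
    show (0 : ℝ) ≤ 0 + M
    linarith
  | x :: l =>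
    obtain ⟨y, hy, h⟩ := walk_snoc (δ := δ) x l x
    show walk δ (x :: (l ++ [x])) ≤ walk δ (x :: l) + M
    rw [h]
    linarith [hM y hy x List.mem_cons_self]

lemma walk_le_sum (I : Finset ℕ) (g : ℕ → ℝ) (P : ℕ → X → ℕ) (S : Finset X)
    (h : ∀ x ∈ S, ∀ y ∈ S, δ x y ≤ ∑ k ∈ I, g k * (if P k x = P k y then 0 else 1)) :
    ∀ l : List X, (∀ x ∈ l, x ∈ S) → walk δ l ≤ ∑ k ∈ I, g k * (sw (P k) l : ℝ)
  | [], _ => by
    show (0 : ℝ) ≤ _
    simp [sw]
  | [_], _ => by
    show (0 : ℝ) ≤ _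
    simp [sw]
  | x :: y :: l, hl => by
    have ih := walk_le_sum I g P S h (y :: l) (fun z hz => hl z (List.mem_cons_of_mem _ hz))
    have h1 := h x (hl x List.mem_cons_self) y (hl y (List.mem_cons_of_mem _ List.mem_cons_self))
    show δ x y + walk δ (y :: l) ≤ _
    refine (add_le_add h1 ih).trans (le_of_eq ?_)
    rw [← Finset.sum_add_distrib]
    apply Finset.sum_congr rfl
    intro k _
    show _ = g k * (((if P k x = P k y then 0 else 1) + sw (P k) (y :: l) : ℕ) : ℝ)
    push_cast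
    ring

lemma wsum_le (hδ : IsMet δ) (I : Finset ℕ) (f : ℕ → X → ℝ) (A : ℝ) :
    ∀ l : List X, (∀ s ∈ l, ∑ k ∈ I, f k s ≤ A) →
      ∑ k ∈ I, wsum δ (f k) l ≤ 2 * A * walk δ l
  | [], _ => by
    show _ ≤ 2 * A * 0
    simp [wsum]
  | [_], _ => by
    show _ ≤ 2 * A * 0
    simp [wsum]
  | x :: y :: l, hl => by
    have ih := wsum_le hδ I f A (y :: l) (fun z hz => hl z (List.mem_cons_of_mem _ hz))
    have h1 := hl x List.mem_cons_self
    have h2 := hl y (List.mem_cons_of_mem _ List.mem_cons_self)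
    have h3 : ∑ k ∈ I, wsum δ (f k) (x :: y :: l) =
        δ x y * (∑ k ∈ I, f k x + ∑ k ∈ I, f k y) + ∑ k ∈ I, wsum δ (f k) (y :: l) := by
      rw [← Finset.sum_add_distrib, Finset.mul_sum, ← Finset.sum_add_distrib]
      rfl
    rw [h3]
    have h4 : δ x y * (∑ k ∈ I, f k x + ∑ k ∈ I, f k y) ≤ δ x y * (2 * A) :=
      mul_le_mul_of_nonneg_left (by linarith) (met_nonneg hδ x y)
    show _ ≤ 2 * A * (δ x y + walk δ (y :: l))
    nlinarith

lemma tail (D : ℝ) (m T : ℕ) (h : m ≤ T) :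
    ∑ k ∈ Ioc m T, D / 2 ^ k = D / 2 ^ m - D / 2 ^ T := by
  induction T, h using Nat.le_induction with
  | base => simp
  | succ T hT ih =>
    rw [Finset.sum_Ioc_succ_top hT, ih]
    rw [pow_succ]
    field_simp
    ring

lemma tail_le (D : ℝ) (hD : 0 ≤ D) (m T : ℕ) : ∑ k ∈ Ioc m T, D / 2 ^ k ≤ D / 2 ^ m := by
  rcases le_total m T with h | h
  · rw [tail D m T h]
    have : 0 ≤ D / 2 ^ T := by positivity
    linarith
  · rw [Finset.Ioc_eq_empty_of_le h]
    simp only [Finset.sum_empty]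
    positivity

end ICO

open ICO in
theorem pr_CO (hWK : S_WK) : S_CO := by
  intro X _ _ δ hδ D ρ A T L ks P τ σ S hD hρ hρ2 hP0 hPs hPd hPT hks hτ hsw hS2 hSL hσ hlt hex hA
  obtain ⟨a, ha, b, hb, hab⟩ := hex
  have hΔpos : ∀ k : ℕ, 0 < D / 2 ^ k := fun k => by positivity
  have hmono : ∀ j k : ℕ, j ≤ k → D / 2 ^ k ≤ D / 2 ^ j := by
    intro j k hjk
    apply div_le_div_of_nonneg_left hD.le (by positivity)
    exact pow_le_pow_right₀ (by norm_num) hjk
  -- labels separate for ever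
  have hPmono : ∀ x y : X, ∀ j k : ℕ, j ≤ k → P k x = P k y → P j x = P j y := by
    intro x y j k hjk
    induction k, hjk using Nat.le_induction with
    | base => exact id
    | succ k _ ih => exact fun h => ih (hPs k x y h)
  -- pointwise inequality
  have hpt : ∀ x ∈ S, ∀ y ∈ S, δ x y ≤ ∑ k ∈ Icc ks T,
      (2 * (D / 2 ^ k)) * (if P k x = P k y then 0 else 1) := by
    intro x hx y hy
    have hnn : ∀ k ∈ Icc ks T, 0 ≤ (2 * (D / 2 ^ k)) * (if P k x = P k y then (0 : ℝ) else 1) := by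
      intro k _
      have := hΔpos k
      split_ifs <;> simp <;> positivity
    by_cases hxy : x = y
    · rw [hxy, hδ.self]
      rw [hxy] at hnn
      exact Finset.sum_nonneg hnn
    · have hexk : ∃ k, P k x ≠ P k y := ⟨T, fun h => hxy (hPT x y h)⟩
      classical
      set k0 := Nat.find hexk with hk0
      have hk0s : P k0 x ≠ P k0 y := Nat.find_spec hexk
      have hk0T : k0 ≤ T := Nat.find_min' hexk (fun h => hxy (hPT x y h))
      have hk0pos : k0 ≠ 0 := by
        intro h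
        rw [h] at hk0s
        exact hk0s (hP0 x y)
      by_cases hle : ks ≤ k0
      · have hmem : k0 ∈ Icc ks T := Finset.mem_Icc.mpr ⟨hle, hk0T⟩
        refine le_trans ?_ (Finset.single_le_sum hnn hmem)
        rw [if_neg hk0s, mul_one]
        obtain ⟨j, hj⟩ := Nat.exists_eq_succ_of_ne_zero hk0pos
        have hjP : P j x = P j y := by
          by_contra hcon
          have := Nat.find_min' hexk hcon
          omega
        have h1 := hPd j x y hjP
        rw [hj, Nat.succ_eq_add_one, pow_succ]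
        refine h1.trans (le_of_eq ?_)
        field_simp
      · have hmem : ks ∈ Icc ks T := Finset.mem_Icc.mpr ⟨le_rfl, hks⟩
        refine le_trans ?_ (Finset.single_le_sum hnn hmem)
        have hne : P ks x ≠ P ks y := fun h => hk0s (hPmono x y k0 ks (by omega) h)
        rw [if_neg hne, mul_one]
        exact (hlt x hx y hy).le
  -- the restricted tour
  set l := τ.filter (fun x => decide (x ∈ S)) with hl
  have hlS : ∀ x ∈ l, x ∈ S := by
    intro x hx
    have := (List.mem_filter.mp hx).2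
    simpa using this
  have hw1 : walk δ l ≤ ∑ k ∈ Icc ks T, (2 * (D / 2 ^ k)) * ((S.image (P k)).card : ℝ) := by
    refine (walk_le_sum (Icc ks T) (fun k => 2 * (D / 2 ^ k)) P S hpt l hlS).trans ?_
    apply Finset.sum_le_sum
    intro k _
    apply mul_le_mul_of_nonneg_left
    · exact_mod_cast hsw k
    · have := hΔpos k
      positivity
  have hsub : Icc ks T ⊆ Icc ks (ks + L) ∪ Ioc (ks + L) T := by
    intro k hk
    rw [Finset.mem_Icc] at hk
    rw [Finset.mem_union, Finset.mem_Icc, Finset.mem_Ioc]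
    omega
  have hdis : Disjoint (Icc ks (ks + L)) (Ioc (ks + L) T) := by
    rw [Finset.disjoint_left]
    intro k hk hk'
    rw [Finset.mem_Icc] at hk
    rw [Finset.mem_Ioc] at hk'
    omega
  have hw2 : ∑ k ∈ Icc ks T, (2 * (D / 2 ^ k)) * ((S.image (P k)).card : ℝ) ≤
      ∑ k ∈ Icc ks (ks + L), (2 * (D / 2 ^ k)) * ((S.image (P k)).card : ℝ) +
      ∑ k ∈ Ioc (ks + L) T, (2 * (D / 2 ^ k)) * ((S.image (P k)).card : ℝ) := by
    rw [← Finset.sum_union hdis]
    apply Finset.sum_le_sum_of_subset_of_nonneg hsub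
    intro k _ _
    have := hΔpos k
    positivity
  -- the tail
  have hw3 : ∑ k ∈ Ioc (ks + L) T, (2 * (D / 2 ^ k)) * ((S.image (P k)).card : ℝ) ≤
      2 * (D / 2 ^ ks) := by
    have h1 : ∑ k ∈ Ioc (ks + L) T, (2 * (D / 2 ^ k)) * ((S.image (P k)).card : ℝ) ≤
        ∑ k ∈ Ioc (ks + L) T, (2 * 2 ^ L) * (D / 2 ^ k) := by
      apply Finset.sum_le_sum
      intro k _
      have hc : ((S.image (P k)).card : ℝ) ≤ 2 ^ L := by
        exact_mod_cast (Finset.card_image_le.trans hSL)
      have := mul_le_mul_of_nonneg_left hc (by have := hΔpos k; positivity : 0 ≤ 2 * (D / 2 ^ k))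
      linarith
    refine h1.trans ?_
    rw [← Finset.mul_sum]
    have h2 := mul_le_mul_of_nonneg_left (tail_le D hD.le (ks + L) T)
      (by positivity : (0 : ℝ) ≤ 2 * 2 ^ L)
    refine h2.trans (le_of_eq ?_)
    rw [pow_add]
    field_simp
  -- the main part
  have hAnn : 0 ≤ A := by
    refine le_trans ?_ (hA a ha)
    apply Finset.sum_nonneg
    intro k _
    positivity
  have hσS : ∀ s ∈ σ, s ∈ S := by
    intro s hs
    rw [← hσ.2]
    exact List.mem_toFinset.mpr hs
  have hSσ : ∀ s ∈ S, s ∈ σ := by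
    intro s hs
    rw [← hσ.2] at hs
    exact List.mem_toFinset.mp hs
  have hw4 : ∑ k ∈ Icc ks (ks + L), (2 * (D / 2 ^ k)) * ((S.image (P k)).card : ℝ) ≤
      4 * A / ρ * walk δ σ := by
    have h1 : ∀ k ∈ Icc ks (ks + L), ((S.image (P k)).card : ℝ) * (ρ * (D / 2 ^ k)) ≤
        wsum δ (fun s => (mm δ (P k) s (ρ * (D / 2 ^ k)) : ℝ)) σ := by
      intro k hk
      rw [Finset.mem_Icc] at hk
      apply hWK X δ hδ σ S hσ (P k) (ρ * (D / 2 ^ k)) (mul_pos hρ (hΔpos k))
      refine ⟨a, ha, b, hb, ?_⟩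
      have h2 := hmono ks k hk.1
      have h3 := hΔpos k
      nlinarith
    have h2 := Finset.sum_le_sum h1
    have h3 := wsum_le hδ (Icc ks (ks + L)) (fun k s => (mm δ (P k) s (ρ * (D / 2 ^ k)) : ℝ)) A σ
      (fun s hs => hA s (hσS s hs))
    have h4 : ∑ k ∈ Icc ks (ks + L), (2 * (D / 2 ^ k)) * ((S.image (P k)).card : ℝ) =
        2 / ρ * ∑ k ∈ Icc ks (ks + L), ((S.image (P k)).card : ℝ) * (ρ * (D / 2 ^ k)) := by
      rw [Finset.mul_sum]
      apply Finset.sum_congr rfl
      intro k _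
      field_simp
    rw [h4]
    have h5 := mul_le_mul_of_nonneg_left (h2.trans h3) (by positivity : 0 ≤ 2 / ρ)
    refine h5.trans (le_of_eq ?_)
    field_simp
    ring
  have hwab : D / 2 ^ ks ≤ walk δ σ := hab.trans (pair_le hδ σ a (hSσ a ha) b (hSσ b hb))
  have hcyc := walk_le_cyc hδ σ
  have hl2 := cyc_le hδ (2 * (D / 2 ^ ks)) (by have := hΔpos ks; positivity) l
    (fun x hx y hy => (hlt x (hlS x hx) y (hlS y hy)).le)
  have hcoef : 0 ≤ 4 * A / ρ + 4 := by positivity
  have hfin := mul_le_mul_of_nonneg_left hcyc hcoef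
  refine le_trans ?_ hfin
  have hexp : (4 * A / ρ + 4) * walk δ σ = 4 * A / ρ * walk δ σ + 4 * walk δ σ := by ring
  rw [hexp]
  linarith

end Pool.Agent.UTSP.DT
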