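import Pool.Agent.Work.MP_27a5a0_lc.DT.Stmts

/-!
MP_27a5a0_lc, block DT, item GL: growth lemma.
-/

set_option autoImplicit false

namespace Pool.Agent.UTSP.DT

open Finset Pool.Agent.UTSP

namespace IGL

open Classical in
/-- The mass that has already been reached. -/
noncomputable def mas {J : Type} [Fintype J] (a ρ ψ : J → ℝ) (x : ℝ) : ℝ :=
  ∑ j ∈ univ.filter (fun j => a j ≤ x - ρ j), ψ j

theorem mas_nonneg {J : Type} [Fintype J] (a ρ ψ : J → ℝ) (hψ : ∀ j, 0 ≤ ψ j) (x : ℝ) :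
    0 ≤ mas a ρ ψ x := by
  unfold mas
  exact sum_nonneg (fun j _ => hψ j)

theorem mas_le {J : Type} [Fintype J] (a ρ ψ : J → ℝ) (hψ : ∀ j, 0 ≤ ψ j) (x : ℝ) :
    mas a ρ ψ x ≤ ∑ j, ψ j := by
  unfold mas
  exact sum_le_sum_of_subset_of_nonneg (filter_subset _ _) (fun j _ _ => hψ j)

theorem mas_mono {J : Type} [Fintype J] (a ρ ψ : J → ℝ) (hψ : ∀ j, 0 ≤ ψ j) (x y : ℝ)
    (hxy : x ≤ y) : mas a ρ ψ x ≤ mas a ρ ψ y := by
  unfold mas
  apply sum_le_sum_of_subset_of_nonneg
  · intro j hj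
    rw [mem_filter] at hj ⊢
    exact ⟨hj.1, by linarith [hj.2]⟩
  · intro j _ _
    exact hψ j

end IGL

open IGL in
theorem pr_GL : S_GL := by
  intro J _ a ρ ψ cost N q T r0 u hu hT hq hN hNq hψ hρ hρT hcost hzero hblock
  by_contra hcon
  push Not at hcon
  have hT' : (0 : ℝ) < (T : ℝ) := by exact_mod_cast hT
  have hN' : (0 : ℝ) < (N : ℝ) := by exact_mod_cast hN
  have hM0 : 0 ≤ ∑ j, ψ j := sum_nonneg (fun j _ => hψ j)
  have hMN : 0 ≤ (∑ j, ψ j) / N := div_nonneg hM0 hN'.le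
  have hcon' : ∀ i < 2 * q * T, mas a ρ ψ (r0 + (i : ℝ) * u) + (∑ j, ψ j) / N <
      ∑ j, cost j (r0 + (i : ℝ) * u) := by
    intro i hi
    exact hcon i hi
  -- one block
  have step : ∀ b < 2 * q, 4 * (mas a ρ ψ (r0 + ((b * T : ℕ) : ℝ) * u) + (∑ j, ψ j) / N) <
      mas a ρ ψ (r0 + (((b + 2) * T : ℕ) : ℝ) * u) := by
    intro b hb
    have hidx : ∀ t < T, b * T + t < 2 * q * T := by
      intro t ht
      calc b * T + t < b * T + T := by omega
        _ = (b + 1) * T := by ring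
        _ ≤ 2 * q * T := Nat.mul_le_mul_right T hb
    have h1 : ∑ t ∈ range T, (mas a ρ ψ (r0 + ((b * T : ℕ) : ℝ) * u) + (∑ j, ψ j) / N) <
        ∑ t ∈ range T, ∑ j, cost j (r0 + ((b * T + t : ℕ) : ℝ) * u) := by
      apply sum_lt_sum_of_nonempty
      · exact nonempty_range_iff.mpr (by omega)
      · intro t ht
        rw [mem_range] at ht
        refine lt_of_le_of_lt ?_ (hcon' (b * T + t) (hidx t ht))
        have hm : mas a ρ ψ (r0 + ((b * T : ℕ) : ℝ) * u) ≤
            mas a ρ ψ (r0 + ((b * T + t : ℕ) : ℝ) * u) := by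
          apply mas_mono a ρ ψ hψ
          have : ((b * T : ℕ) : ℝ) ≤ ((b * T + t : ℕ) : ℝ) := by
            exact_mod_cast Nat.le_add_right _ _
          have := mul_le_mul_of_nonneg_right this hu.le
          linarith
        linarith
    rw [sum_const, card_range, nsmul_eq_mul, sum_comm] at h1
    have h2 : ∑ j, ∑ t ∈ range T, cost j (r0 + ((b * T + t : ℕ) : ℝ) * u) ≤
        (T : ℝ) / 4 * mas a ρ ψ (r0 + (((b + 2) * T : ℕ) : ℝ) * u) := by
      unfold mas
      rw [mul_sum, sum_filter]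
      apply sum_le_sum
      intro j _
      split_ifs with hj
      · refine le_trans (hblock j b hb) (le_of_eq ?_)
        ring
      · apply le_of_eq
        apply sum_eq_zero
        intro t ht
        rw [mem_range] at ht
        apply hzero
        push Not at hj
        have e1 : (((b + 2) * T : ℕ) : ℝ) = (b : ℝ) * T + 2 * T := by push_cast; ring
        have e2 : ((b * T + t : ℕ) : ℝ) = (b : ℝ) * T + t := by push_cast; ring
        rw [e1] at hj
        rw [e2]
        have ht' : (t : ℝ) ≤ (T : ℝ) := by exact_mod_cast ht.le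
        have h3 : (t : ℝ) * u ≤ (T : ℝ) * u := mul_le_mul_of_nonneg_right ht' hu.le
        have h4 := hρT j
        rw [lt_abs]
        right
        have h5 := hρ j
        nlinarith [h3, h4, hj, h5]
    have h3 : (T : ℝ) * (mas a ρ ψ (r0 + ((b * T : ℕ) : ℝ) * u) + (∑ j, ψ j) / N) <
        (T : ℝ) * (mas a ρ ψ (r0 + (((b + 2) * T : ℕ) : ℝ) * u) / 4) := by
      refine lt_of_lt_of_le h1 (le_trans h2 (le_of_eq ?_))
      ring
    have h4 := lt_of_mul_lt_mul_left h3 hT'.le
    linarith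
  have ind : ∀ i, 1 ≤ i → i ≤ q →
      (4 : ℝ) ^ i * ((∑ j, ψ j) / N) < mas a ρ ψ (r0 + ((2 * i * T : ℕ) : ℝ) * u) := by
    intro i hi
    induction i, hi using Nat.le_induction with
    | base =>
      intro hq1
      have h := step 0 (by omega)
      have h0 := mas_nonneg a ρ ψ hψ (r0 + ((0 * T : ℕ) : ℝ) * u)
      have e : (0 + 2) * T = 2 * 1 * T := by ring
      rw [e] at h
      rw [pow_one]
      linarith
    | succ i hi ih =>
      intro hiq
      have h := step (2 * i) (by omega)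
      have ih' := ih (by omega)
      have e : (2 * i + 2) * T = 2 * (i + 1) * T := by ring
      rw [e] at h
      rw [pow_succ]
      linarith
  have hfin := ind q hq le_rfl
  have hle := mas_le a ρ ψ hψ (r0 + ((2 * q * T : ℕ) : ℝ) * u)
  have h4q : (N : ℝ) ≤ (4 : ℝ) ^ q := by exact_mod_cast hNq
  have : (∑ j, ψ j) ≤ (4 : ℝ) ^ q * ((∑ j, ψ j) / N) := by
    calc (∑ j, ψ j) = (N : ℝ) * ((∑ j, ψ j) / N) := by field_simp
      _ ≤ (4 : ℝ) ^ q * ((∑ j, ψ j) / N) := mul_le_mul_of_nonneg_right h4q hMN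
  linarith

end Pool.Agent.UTSP.DT
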