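import Pool.Agent.Work.MP_27a5a0_lc.DT.COa
import Pool.Agent.Work.MP_27a5a0_lc.DT.I_MN

/-!
MP_27a5a0_lc, block DT: main theorem for the snowflakes `δ ^ α`, `0 < α ≤ 1`.
-/

set_option autoImplicit false

namespace Pool.Agent.UTSP.DT

open Finset Pool.Agent.UTSP

/-- Main theorem for snowflakes, in terms of `HasRatio`. -/
def S_MNa : Prop :=
  ∃ C : ℝ, 0 < C ∧ ∀ (X : Type) [Fintype X] [DecidableEq X] (δ : X → X → ℝ), IsMet δ →
    ∀ d : ℕ, 1 ≤ d → Doubling δ (2 ^ d) → 2 ≤ Fintype.card X → ∀ α : ℝ, 0 < α → α ≤ 1 →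
    ∃ τ : List X, IsOrd (univ : Finset X) τ ∧
      HasRatio (sf δ α) (C * (d : ℝ) ^ α * Real.log (Fintype.card X) / α) τ

open IMN ICOa in
theorem pr_MNa (hHP : S_HP) (hTO : S_TO) (hWK : S_WK) : S_MNa := by
  refine ⟨10 ^ 8, by norm_num, ?_⟩
  intro X _ _ δ hδ d hd hdoub hcard α hα0 hα1
  obtain ⟨x0, y0, hxy0⟩ := Fintype.one_lt_card_iff.mp (by omega : 1 < Fintype.card X)
  obtain ⟨p, -, hp⟩ := Finset.exists_max_image (univ : Finset (X × X)) (fun p => δ p.1 p.2)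
    ⟨(x0, y0), mem_univ _⟩
  obtain ⟨D, hDdef⟩ : ∃ D : ℝ, D = δ p.1 p.2 := ⟨_, rfl⟩
  have hDle : ∀ x y, δ x y ≤ D := fun x y => by
    rw [hDdef]
    exact hp (x, y) (mem_univ _)
  have hD : 0 < D := lt_of_lt_of_le (hδ.pos x0 y0 hxy0) (hDle x0 y0)
  have hlev0 : ∀ q : X × X, ∃ k : ℕ, q.1 ≠ q.2 →
      (D / 2 ^ k ≤ δ q.1 q.2 ∧ δ q.1 q.2 < 2 * (D / 2 ^ k)) := by
    intro q
    by_cases h : q.1 = q.2
    · exact ⟨0, fun h' => absurd h h'⟩
    · obtain ⟨k, hk⟩ := exists_lev (hδ.pos _ _ h) (hDle _ _)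
      exact ⟨k, fun _ => hk⟩
  choose lev hlev using hlev0
  obtain ⟨Ks, hKsdef⟩ : ∃ Ks : Finset ℕ, Ks = univ.image lev := ⟨_, rfl⟩
  have hKs : Ks.card ≤ Fintype.card X * Fintype.card X := by
    rw [hKsdef]
    calc (univ.image lev).card ≤ (univ : Finset (X × X)).card := card_image_le
      _ = Fintype.card X * Fintype.card X := by rw [card_univ, Fintype.card_prod]
  have hmemK : ∀ q, lev q ∈ Ks := fun q => by
    rw [hKsdef]
    exact mem_image_of_mem lev (mem_univ q)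
  obtain ⟨T, hTdef⟩ : ∃ T : ℕ, T = Ks.sup id + 1 := ⟨_, rfl⟩
  have hT : ∀ q, lev q < T := fun q => by
    rw [hTdef]
    exact Nat.lt_succ_of_le (Finset.le_sup (f := id) (hmemK q))
  obtain ⟨L, hLdef⟩ : ∃ L : ℕ, L = ⌈((Nat.clog 2 (Fintype.card X) : ℕ) : ℝ) / α⌉₊ := ⟨_, rfl⟩
  obtain ⟨P, hP0, hPs, hPd, hPm⟩ := hHP X δ hδ d hd hdoub D hD hDle L Ks
  have hPT : ∀ x y, P T x = P T y → x = y := by
    intro x y h
    by_contra hne
    have h1 := hPd T x y h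
    have h2 := (hlev (x, y) hne).1
    have h3 : D / 2 ^ T < D / 2 ^ lev (x, y) := by
      apply div_lt_div_of_pos_left hD (by positivity)
      exact pow_lt_pow_right₀ (by norm_num) (hT _)
    exact absurd (lt_of_lt_of_le h3 h2) (not_lt.mpr h1)
  obtain ⟨τ, hτ, hsw⟩ := hTO X T P hPs hPT
  refine ⟨τ, hτ, ?_⟩
  intro S hS σ hσ
  obtain ⟨a0, ha0, b0, hb0, hab0⟩ := Finset.one_lt_card.mp (by omega : 1 < S.card)
  obtain ⟨q, hq, hqm⟩ := Finset.exists_max_image (S ×ˢ S) (fun p => δ p.1 p.2)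
    ⟨(a0, b0), mem_product.mpr ⟨ha0, hb0⟩⟩
  have hqmem := mem_product.mp hq
  have hqle : ∀ x ∈ S, ∀ y ∈ S, δ x y ≤ δ q.1 q.2 := fun x hx y hy =>
    hqm (x, y) (mem_product.mpr ⟨hx, hy⟩)
  have hqne : q.1 ≠ q.2 := by
    intro h
    have h1 := hqle a0 ha0 b0 hb0
    rw [h, hδ.self] at h1
    exact absurd h1 (not_le.mpr (hδ.pos a0 b0 hab0))
  obtain ⟨hq1, hq2⟩ := hlev q hqne
  -- numbers
  have hn2 : (2 : ℝ) ≤ (Fintype.card X : ℝ) := by exact_mod_cast hcard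
  have hnpos : (0 : ℝ) < (Fintype.card X : ℝ) := by linarith
  have hl2 : (0.69 : ℝ) < Real.log 2 := lt_trans (by norm_num) Real.log_two_gt_d9
  have hℓ2 : Real.log 2 ≤ Real.log (Fintype.card X) := Real.log_le_log (by norm_num) hn2
  obtain ⟨ℓ, hℓdef⟩ : ∃ ℓ : ℝ, ℓ = Real.log (Fintype.card X) := ⟨_, rfl⟩
  rw [← hℓdef] at hℓ2
  have hℓ : (0.69 : ℝ) < ℓ := lt_of_lt_of_le hl2 hℓ2
  have hclog : ((Nat.clog 2 (Fintype.card X) : ℕ) : ℝ) + 1 ≤ 5 * ℓ := by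
    have h1 : 2 ^ (Nat.clog 2 (Fintype.card X)).pred < Fintype.card X :=
      Nat.pow_pred_clog_lt_self (by norm_num) (by omega)
    have h2 : (Nat.clog 2 (Fintype.card X)) ≤ (Nat.clog 2 (Fintype.card X)).pred + 1 := by
      have := Nat.succ_pred_eq_of_pos (n := Nat.clog 2 (Fintype.card X))
        (Nat.clog_pos (by norm_num) (by omega))
      omega
    have h2' : ((Nat.clog 2 (Fintype.card X) : ℕ) : ℝ) ≤
        ((Nat.clog 2 (Fintype.card X)).pred : ℝ) + 1 := by exact_mod_cast h2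
    have h3 : ((2 : ℝ) ^ (Nat.clog 2 (Fintype.card X)).pred) ≤ (Fintype.card X : ℝ) := by
      exact_mod_cast h1.le
    have h4 := Real.log_le_log (by positivity) h3
    rw [Real.log_pow, ← hℓdef] at h4
    have h5 : ((Nat.clog 2 (Fintype.card X)).pred : ℝ) * 0.69 ≤ ℓ := by
      refine le_trans ?_ h4
      exact mul_le_mul_of_nonneg_left hl2.le (by positivity)
    linarith
  have hL1 : ((L : ℕ) : ℝ) + 1 ≤ 7 * (ℓ / α) := by
    have h1 := (Nat.ceil_lt_add_one (by positivity :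
      0 ≤ ((Nat.clog 2 (Fintype.card X) : ℕ) : ℝ) / α)).le
    rw [← hLdef] at h1
    have h2 : (1 : ℝ) ≤ 1 / α := by
      rw [le_div_iff₀ hα0]
      linarith
    have h3 : ((Nat.clog 2 (Fintype.card X) : ℕ) : ℝ) / α + 2 * (1 / α) ≤ 7 * (ℓ / α) := by
      have e1 : ((Nat.clog 2 (Fintype.card X) : ℕ) : ℝ) / α + 2 * (1 / α)
          = (((Nat.clog 2 (Fintype.card X) : ℕ) : ℝ) + 2) / α := by ring
      have e2 : 7 * (ℓ / α) = (7 * ℓ) / α := by ring
      rw [e1, e2]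
      apply div_le_div_of_nonneg_right _ hα0.le
      linarith
    linarith
  have hc : (S.card : ℝ) ≤ 2 ^ (α * L) := by
    have h1 : S.card ≤ 2 ^ Nat.clog 2 (Fintype.card X) :=
      le_trans (card_le_univ S) (Nat.le_pow_clog (by norm_num) _)
    have h2 : (S.card : ℝ) ≤ (2 : ℝ) ^ (((Nat.clog 2 (Fintype.card X) : ℕ) : ℝ)) := by
      rw [Real.rpow_natCast]
      exact_mod_cast h1
    refine h2.trans (Real.rpow_le_rpow_of_exponent_le (by norm_num) ?_)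
    have h3 := Nat.le_ceil (((Nat.clog 2 (Fintype.card X) : ℕ) : ℝ) / α)
    rw [← hLdef, div_le_iff₀ hα0] at h3
    linarith
  have hdr : (1 : ℝ) ≤ (d : ℝ) := by exact_mod_cast hd
  have hr : ∀ k : ℕ, (1 / (65536 * (d : ℝ))) * (D / 2 ^ k) = D / 2 ^ k / (65536 * d) := by
    intro k
    rw [one_div, mul_comm, ← div_eq_mul_inv]
  have hA : ∀ y ∈ S, ∑ k ∈ Icc (lev q) (lev q + L),
      (mm δ (P k) y ((1 / (65536 * (d : ℝ))) * (D / 2 ^ k)) : ℝ) ≤ 32 * (ℓ / α) := by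
    intro y _
    have h1 := hPm y (lev q) (hmemK q)
    obtain ⟨s, hs⟩ : ∃ s : ℕ, s = ∑ k ∈ Icc (lev q) (lev q + L),
      mm δ (P k) y (D / 2 ^ k / (65536 * d)) := ⟨_, rfl⟩
    rw [← hs] at h1
    have h2 : ∑ k ∈ Icc (lev q) (lev q + L),
      (mm δ (P k) y ((1 / (65536 * (d : ℝ))) * (D / 2 ^ k)) : ℝ) = (s : ℝ) := by
      rw [hs, Nat.cast_sum]
      exact sum_congr rfl fun k _ => by rw [hr k]
    rw [h2]
    have h3 : (4 / 3 : ℝ) ^ s ≤ (Fintype.card X : ℝ) ^ 3 *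
        (5 / 3) ^ (L + 1) := by
      refine le_trans h1 ?_
      apply mul_le_mul_of_nonneg_right _ (by positivity)
      have : (Ks.card : ℝ) ≤ (Fintype.card X : ℝ) * Fintype.card X := by exact_mod_cast hKs
      calc (Fintype.card X : ℝ) * Ks.card
          ≤ (Fintype.card X : ℝ) * ((Fintype.card X : ℝ) * Fintype.card X) :=
            mul_le_mul_of_nonneg_left this hnpos.le
        _ = (Fintype.card X : ℝ) ^ 3 := by ring
    have h4 := Real.log_le_log (by positivity) h3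
    rw [Real.log_pow, Real.log_mul (by positivity) (by positivity), Real.log_pow, Real.log_pow,
      ← hℓdef] at h4
    have h5 : (1 / 4 : ℝ) ≤ Real.log (4 / 3) := by
      have := Real.one_sub_inv_le_log_of_pos (show (0 : ℝ) < 4 / 3 by norm_num)
      norm_num at this
      linarith
    have h6 : Real.log (5 / 3) ≤ 2 / 3 := by
      have := Real.log_le_sub_one_of_pos (show (0 : ℝ) < 5 / 3 by norm_num)
      linarith
    have h7 : (s : ℝ) * (1 / 4) ≤ (s : ℝ) * Real.log (4 / 3) :=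
      mul_le_mul_of_nonneg_left h5 (Nat.cast_nonneg s)
    have h8 : ((L + 1 : ℕ) : ℝ) * Real.log (5 / 3) ≤
        ((L + 1 : ℕ) : ℝ) * (2 / 3) :=
      mul_le_mul_of_nonneg_left h6 (Nat.cast_nonneg _)
    have h9 : ℓ ≤ ℓ / α := by
      rw [le_div_iff₀ hα0]
      nlinarith
    push_cast at h4 h8
    nlinarith
  have hmain := pr_COa hWK X δ hδ α hα0 hα1 D (1 / (65536 * (d : ℝ))) (32 * (ℓ / α)) T
    L (lev q) P τ σ S hD (by positivity) hP0 hPs hPd hPT (hT q).le (hsw S) hc hσ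
    (fun x hx y hy => lt_of_le_of_lt (hqle x hx y hy) hq2)
    ⟨q.1, hqmem.1, q.2, hqmem.2, hq1⟩ hA
  refine le_trans hmain ?_
  apply mul_le_mul_of_nonneg_right _ (cyc_nonneg (sf_met hδ hα0 hα1) σ)
  rw [← hℓdef]
  -- the constant
  have hdα : (1 : ℝ) ≤ (d : ℝ) ^ α := Real.one_le_rpow hdr hα0.le
  have h65 : (65536 * (d : ℝ)) ^ α ≤ 65536 * (d : ℝ) ^ α := by
    rw [Real.mul_rpow (by norm_num) (by positivity)]
    have h1 : (65536 : ℝ) ^ α ≤ 65536 := by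
      have h := Real.rpow_le_rpow_of_exponent_le (by norm_num : (1 : ℝ) ≤ 65536) hα1
      rwa [Real.rpow_one] at h
    exact mul_le_mul_of_nonneg_right h1 (by positivity)
  have hmin : 1 / (65536 * (d : ℝ) ^ α) ≤ min ((1 / (65536 * (d : ℝ))) ^ α) (1 / 2) := by
    refine le_min ?_ ?_
    · rw [Real.div_rpow (by norm_num) (by positivity), Real.one_rpow]
      exact one_div_le_one_div_of_le (by positivity) h65
    · exact one_div_le_one_div_of_le (by norm_num) (by linarith)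
  have hℓα : 0 < ℓ / α := by
    have : 0 < ℓ := by linarith
    positivity
  have h1 : 4 * (32 * (ℓ / α)) / min ((1 / (65536 * (d : ℝ))) ^ α) (1 / 2)
      ≤ 4 * (32 * (ℓ / α)) / (1 / (65536 * (d : ℝ) ^ α)) :=
    div_le_div_of_nonneg_left (by positivity) (by positivity) hmin
  have h2 : 4 * (32 * (ℓ / α)) / (1 / (65536 * (d : ℝ) ^ α)) = 8388608 * ((d : ℝ) ^ α * (ℓ / α)) := by
    rw [div_div_eq_mul_div, div_one]
    ring
  have h3 : 1 / α ≤ 2 * (ℓ / α) := by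
    have e2 : 2 * (ℓ / α) = (2 * ℓ) / α := by ring
    rw [e2]
    apply div_le_div_of_nonneg_right _ hα0.le
    linarith
  have h4 : (1 : ℝ) ≤ 1 / α := by
    rw [le_div_iff₀ hα0]
    linarith
  have h5 : ℓ / α ≤ (d : ℝ) ^ α * (ℓ / α) := le_mul_of_one_le_left hℓα.le hdα
  have h6 : 4 / α = 4 * (1 / α) := by ring
  have h7 : 10 ^ 8 * (d : ℝ) ^ α * ℓ / α = 10 ^ 8 * ((d : ℝ) ^ α * (ℓ / α)) := by ring
  rw [h7, h6]
  linarith

end Pool.Agent.UTSP.DT
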