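import Pool.Agent.Work.MP_27a5a0_lc.DT.Defs

/-!
MP_27a5a0_lc, block DT: statements of the items (note 4522).
-/

set_option autoImplicit false

namespace Pool.Agent.UTSP.DT

open Finset Pool.Agent.UTSP

open Classical in
/-- [GL] Growth lemma.  `2 q` intervals (blocks) of `T` lattice radii each, `x_i = r0 + i u`.
Proof by contradiction: suppose for all `i < 2 q T` the sum of the costs is
`> m (x_i) + M / N`, where `m x = ∑_{a j ≤ x - ρ j} ψ j`, `M = ∑ ψ`.  Sum over the `T` radii of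
block `b`: the costs are zero unless `a j ≤ x_{(b+1)T} + ρ j`, `m` is monotone, so
`(T / 4) * ∑_{a j ≤ x_{(b+1)T} + ρ j} ψ j > T * (m (x_{bT}) + M / N)`, hence (as `2 ρ ≤ T u`)
`m (x_{(b+2)T}) > 4 (m (x_{bT}) + M / N)` (and `M > 4 M / N`..., so `M > 0`), for `b + 2 ≤ 2 q`
(for the last block use `M` on the left).  By induction `m (x_{2iT}) ≥ 4 ^ i * M / N` for
`1 ≤ i < q`, and finally `M > 4 ^ q * M / N ≥ M`. -/
def S_GL : Prop :=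
  ∀ (J : Type) [Fintype J] (a ρ ψ : J → ℝ) (cost : J → ℝ → ℝ) (N q T : ℕ) (r0 u : ℝ),
    0 < u → 1 ≤ T → 1 ≤ q → 1 ≤ N → N ≤ 4 ^ q → (∀ j, 0 ≤ ψ j) → (∀ j, 0 ≤ ρ j) →
    (∀ j, 2 * ρ j ≤ T * u) → (∀ j x, 0 ≤ cost j x) → (∀ j x, ρ j < |x - a j| → cost j x = 0) →
    (∀ j, ∀ b < 2 * q, ∑ t ∈ range T, cost j (r0 + ((b * T + t : ℕ) : ℝ) * u) ≤ T * ψ j / 4) →
    ∃ i < 2 * q * T, ∑ j, cost j (r0 + (i : ℝ) * u) ≤
      (∑ j ∈ univ.filter (fun j => a j ≤ r0 + (i : ℝ) * u - ρ j), ψ j) + (∑ j, ψ j) / N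

/-- [CT] Counting.  The set of `s < c` with `|x| ≤ r / 2 ^ s` is `range (nr r c x)`, so
`θ ^ nr - 1 = ∑_{s < c, |x| ≤ r / 2 ^ s} θ ^ s (θ - 1)`; the number of `t < T` with
`|r1 + t u - a| ≤ ρ` is at most `2 ρ / u + 1 ≤ 3 ρ / u` for `ρ = r / 2 ^ s ≥ u`; finally
`∑_s (θ - 1) (θ / 2) ^ s ≤ (θ - 1) / (1 - θ / 2) ≤ 4`. -/
def S_CT : Prop :=
  ∀ (θ r u a r1 : ℝ) (c T : ℕ), 1 ≤ θ → θ ≤ 5 / 3 → 0 < u → 0 ≤ r →
    (∀ s < c, u ≤ r / 2 ^ s) →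
    ∑ t ∈ range T, (θ ^ nr r c (r1 + (t : ℝ) * u - a) - 1) ≤ 12 * r / u

open Classical in
/-- [SL] Choice of a radius.  From `S_GL` with `cost j x = g j * (θ j ^ nr .. (x - a j) - 1)`,
`ψ j = g j * eps / 4`, `r0 = Δ / 4`, `T` large, `u = Δ / (8 q T)` (so `T u = Δ / (8 q) ≥ 2 r j`
and `u ≤ r j / 2 ^ s` for all `s < c j`, `j` in the finite `J`), and `S_CT`:
`12 r / u = 96 q T r / Δ = T * eps / 16`.  If `r j < |x|` then `nr = 0`. -/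
def S_SL : Prop :=
  ∀ (J : Type) [Fintype J] (a r θ g : J → ℝ) (c : J → ℕ) (Δ : ℝ) (N q : ℕ),
    0 < Δ → 1 ≤ q → 1 ≤ N → N ≤ 4 ^ q → OKW Δ q r c θ → (∀ j, 0 ≤ g j) →
    ∃ x : ℝ, Δ / 4 ≤ x ∧ x ≤ Δ / 2 ∧
      ∑ j, g j * (θ j ^ nr (r j) (c j) (x - a j) - 1) ≤
        (∑ j ∈ univ.filter (fun j => a j ≤ x - r j), g j * eps q Δ (r j) / 4) +
          (∑ j, g j * eps q Δ (r j) / 4) / N

/-- [SPL] Effect of one split on `ee` and `bl` (`M` is a new label).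
(1) in general; (2) if the block does not meet the largest ball or the cutting ball does not reach
it, nothing changes; (3) if the cutting ball contains it then `ee` does not grow and the rest of
the block does not meet it any more.  (If both parts meet the ball of radius `t` around `y` then
`|x - δ c y| ≤ t`.) -/
def S_SPL : Prop :=
  ∀ (X : Type) [Fintype X] (δ : X → X → ℝ), IsMet δ → ∀ (P : X → ℕ) (β M : ℕ) (c y : X)
    (x r : ℝ) (k : ℕ), 0 ≤ r → (∀ z, P z ≠ M) → β ≠ M →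
    ee δ (spl δ P β c x M) y r k ≤ ee δ P y r k + nr r k (x - δ c y) ∧
    (β ∉ bl δ P y r ∨ x < δ c y - r → ee δ (spl δ P β c x M) y r k ≤ ee δ P y r k) ∧
    (δ c y + r ≤ x → ee δ (spl δ P β c x M) y r k ≤ ee δ P y r k ∧
      β ∉ bl δ (spl δ P β c x M) y r) ∧
    (β ∉ bl δ P y r → β ∉ bl δ (spl δ P β c x M) y r)

open Classical in
/-- [BL] Splitting one block (label `β`).  Induction on the list `cs` of centers, generalizing `P`.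
`cs = []`: the block is empty, `P' = P`.  `cs = c :: cs'`: use `S_SL` with
`J = {w // β ∈ bl δ P (y w) (r w) ∧ δ c (y w) ≤ Δ}`, `a = δ c (y w)`,
`g w = φ w θ^ee (1 + ε/2) (1 + ε/(4N)) ^ (nc cs')`; split with the radius `x` obtained, new label
`M` (larger than all labels and than `β`), apply the induction hypothesis to the new partition,
`β` and `cs'`.  Terms: `w` outside `J` do not grow (`S_SPL`); for `w ∈ J` the old term is
`g w * (1 + ε/(4N))`, the new one at most `g w * θ ^ nr` in general (which is `g w` if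
`r w < |x - a w|`), and at most `g w / (1 + ε/2)` if `a w ≤ x - r w`. -/
def S_BL : Prop :=
  ∀ (X : Type) [Fintype X] (δ : X → X → ℝ), IsMet δ → ∀ (W : Type) [Fintype W] (y : W → X)
    (r θ φ : W → ℝ) (c : W → ℕ) (Δ : ℝ) (N q : ℕ), 0 < Δ → 1 ≤ q → 1 ≤ N → N ≤ 4 ^ q →
    OKW Δ q r c θ → (∀ w, 0 ≤ φ w) → ∀ (cs : List X) (P : X → ℕ) (β : ℕ),
    (∀ x, P x = β → ∃ z ∈ cs, δ z x ≤ Δ / 4) →
    ∃ P' : X → ℕ, (∀ x, P x ≠ β → P' x = P x) ∧ (∀ x x', P' x = P' x' → P x = P x') ∧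
      (∀ x x', P x = β → P' x = P' x' → δ x x' ≤ Δ) ∧
      ∑ w, φ w * θ w ^ ee δ P' (y w) (r w) (c w) ≤
        ∑ w, φ w * θ w ^ ee δ P (y w) (r w) (c w) *
          (if β ∈ bl δ P (y w) (r w) then
            (1 + eps q Δ (r w) / 2) * (1 + eps q Δ (r w) / (4 * N)) ^ nc δ Δ cs (y w) else 1)

/-- [OL] Octave lemma: apply `S_BL` to all the labels of `P` one after the other.  Induction on a
list of labels: after the labels of `l` are done the weighted sum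
`∑ φ θ ^ ee * (1 + ε) ^ (number of the other labels of P in bl δ P (y w) (r w))` has not grown
(`S_BL` with the weights `φ w (1 + ε) ^ ..`; the blocks not yet treated are unchanged);
`(1 + ε/2) (1 + ε/(4N)) ^ N ≤ 1 + ε` because `0 ≤ ε ≤ 3/64`. -/
def S_OL : Prop :=
  ∀ (X : Type) [Fintype X] (δ : X → X → ℝ), IsMet δ → ∀ (W : Type) [Fintype W] (y : W → X)
    (r θ φ : W → ℝ) (c : W → ℕ) (Δ : ℝ) (N q : ℕ), 0 < Δ → 1 ≤ q → 1 ≤ N → N ≤ 4 ^ q →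
    OKW Δ q r c θ → (∀ w, 0 ≤ φ w) → ∀ cs : List X, (∀ x, ∃ z ∈ cs, δ z x ≤ Δ / 4) →
    (∀ x, nc δ Δ cs x ≤ N) → ∀ P : X → ℕ,
    ∃ P' : X → ℕ, (∀ x x', P' x = P' x' → P x = P x') ∧ (∀ x x', P' x = P' x' → δ x x' ≤ Δ) ∧
      ∑ w, φ w * θ w ^ ee δ P' (y w) (r w) (c w) ≤
        ∑ w, φ w * θ w ^ ee δ P (y w) (r w) (c w) *
          (1 + eps q Δ (r w)) ^ mm δ P (y w) (r w)

/-- [NET] A maximal set of points at mutual distances `> Δ / 4`; the ball of radius `Δ` around `x`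
is covered by `K ^ 3` balls of radius `Δ / 8`, each of which contains at most one of them. -/
def S_NET : Prop :=
  ∀ (X : Type) [Fintype X] (δ : X → X → ℝ), IsMet δ → ∀ K : ℕ, Doubling δ K →
    ∀ Δ : ℝ, 0 < Δ → ∃ cs : List X, (∀ x, ∃ z ∈ cs, δ z x ≤ Δ / 4) ∧ ∀ x, nc δ Δ cs x ≤ K ^ 3

/-- [HP] The hierarchy.  Windows `w = (y, k1)`, `k1 ∈ Ks`.  At level `k` put
`c_k = k1 + L + 1 - max k k1`, `r_k = if c_k = 0 then 0 else D / 2 ^ (max k k1) / (65536 d)`,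
`θ_k = 5/3 - (1/6) / 2 ^ (k1 - k)` (natural subtraction).  Construct `P k` and the weights `ψ_k`
(`ψ_0 = 1`, `ψ_{k+1} = ψ_k * (4/3) ^ (if k1 ≤ k ≤ k1 + L then mm δ (P k) y r_k else 0)`)
recursively such that `Φ_k = ∑_w ψ_k θ_k ^ ee δ (P k) y r_k c_k` does not grow: apply `S_OL` with
`Δ = D / 2 ^ (k+1)`, `q = 2 d`, `N = 8 ^ d` (`S_NET`, `K = 2 ^ d`), the radii `r_{k+1}, c_{k+1}`,
the bases `θ_{k+1}` and the weights `ψ_{k+1}`.  `k < k1`: same radii, `mm ≤ ee` and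
`θ_{k+1} (1 + ε) ≤ θ_k`, `ε ≤ (3/64) / 2 ^ (k1 - k - 1)`.  `k1 ≤ k ≤ k1 + L`:
`ee_k = mm δ (P k) y r_k + ee with the radii of level k + 1`, `(4/3) (1 + ε) ≤ 3/2`, `ε = 0` if
`c_{k+1} = 0`.  `k > k1 + L`: all is constant.  `Φ_0 ≤ |X| |Ks| (5/3) ^ (L + 1)`; at level
`k1 + L + 1` the term of `w` is the left side. -/
def S_HP : Prop :=
  ∀ (X : Type) [Fintype X] (δ : X → X → ℝ), IsMet δ → ∀ d : ℕ, 1 ≤ d → Doubling δ (2 ^ d) →
    ∀ D : ℝ, 0 < D → (∀ x y, δ x y ≤ D) → ∀ (L : ℕ) (Ks : Finset ℕ),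
    ∃ P : ℕ → X → ℕ, (∀ x y, P 0 x = P 0 y) ∧ (∀ k x y, P (k + 1) x = P (k + 1) y → P k x = P k y) ∧
      (∀ k x y, P k x = P k y → δ x y ≤ D / 2 ^ k) ∧
      ∀ y, ∀ k1 ∈ Ks, (4 / 3 : ℝ) ^ (∑ k ∈ Icc k1 (k1 + L), mm δ (P k) y (D / 2 ^ k / (65536 * d))) ≤
        (Fintype.card X : ℝ) * Ks.card * (5 / 3) ^ (L + 1)

/-- [TO] The tour: order `X` by the vector `(P 0 x, ..., P T x)` lexicographically (e.g.
`Finset.sort` or `List.mergeSort`).  In the filtered list the blocks of every `P k` are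
contiguous, so the number of switches is at most the number of labels. -/
def S_TO : Prop :=
  ∀ (X : Type) [Fintype X] [DecidableEq X] (T : ℕ) (P : ℕ → X → ℕ),
    (∀ k x y, P (k + 1) x = P (k + 1) y → P k x = P k y) → (∀ x y, P T x = P T y → x = y) →
    ∃ τ : List X, IsOrd (univ : Finset X) τ ∧ ∀ (S : Finset X) (k : ℕ),
      sw (P k) (τ.filter (fun x => decide (x ∈ S))) ≤ (S.image (P k)).card

/-- [WK] Walks.  For every label `b` of `S` choose `p ∈ S` with this label.  Claim: `ρ ≤ wsum δ f σ`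
for `f s = if δ s p ≤ ρ then 1 else 0`: write `σ = l1 ++ p :: l2`; one of the two parts has length
`≥ ρ`; along a list starting at `p` one gets at least `min ρ (walk ..)` (induction: a point at
distance `≤ t ≤ ρ` along the walk).  Sum over the labels:
`∑_b (if δ s p_b ≤ ρ then 1 else 0) ≤ mm δ P s ρ`. -/
def S_WK : Prop :=
  ∀ (X : Type) [Fintype X] [DecidableEq X] (δ : X → X → ℝ), IsMet δ → ∀ (σ : List X)
    (S : Finset X), IsOrd S σ → ∀ (P : X → ℕ) (ρ : ℝ), 0 < ρ →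
    (∃ a ∈ S, ∃ b ∈ S, 2 * ρ ≤ δ a b) →
    ((S.image P).card : ℝ) * ρ ≤ wsum δ (fun s => (mm δ P s ρ : ℝ)) σ

/-- [CO] Cost of the restricted tour (`Δ_k = D / 2 ^ k`).  For `x ≠ y` in `S`, first separated at
the level `k0 ≤ T` (`k0 ≥ 1`): `δ x y ≤ Δ_(k0-1) = 2 Δ_k0` and `δ x y < 2 Δ_ks`, so
`δ x y ≤ ∑_{k ∈ Icc ks T} 2 Δ_k [P k x ≠ P k y]`; hence
`walk δ (τ|S) ≤ ∑_{k ∈ Icc ks T} 2 Δ_k sw (P k) (τ|S) ≤ ∑ 2 Δ_k |S.image (P k)|`.
Levels `k > ks + L`: at most `2 |S| Δ_(ks+L) ≤ 2 Δ_ks`.  Levels `k ≤ ks + L`: `S_WK` with the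
radius `ρ Δ_k`; summing over `k`: at most `(2 / ρ) (2 A) walk δ σ`.  Closing edge `< 2 Δ_ks`;
`Δ_ks ≤ δ a b ≤ walk δ σ ≤ cyc δ σ`. -/
def S_CO : Prop :=
  ∀ (X : Type) [Fintype X] [DecidableEq X] (δ : X → X → ℝ), IsMet δ → ∀ (D ρ A : ℝ)
    (T L ks : ℕ) (P : ℕ → X → ℕ) (τ σ : List X) (S : Finset X), 0 < D → 0 < ρ → ρ ≤ 1 / 2 →
    (∀ x y, P 0 x = P 0 y) → (∀ k x y, P (k + 1) x = P (k + 1) y → P k x = P k y) →
    (∀ k x y, P k x = P k y → δ x y ≤ D / 2 ^ k) → (∀ x y, P T x = P T y → x = y) → ks ≤ T →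
    IsOrd (univ : Finset X) τ →
    (∀ k, sw (P k) (τ.filter (fun x => decide (x ∈ S))) ≤ (S.image (P k)).card) →
    2 ≤ S.card → S.card ≤ 2 ^ L → IsOrd S σ → (∀ x ∈ S, ∀ y ∈ S, δ x y < 2 * (D / 2 ^ ks)) →
    (∃ a ∈ S, ∃ b ∈ S, D / 2 ^ ks ≤ δ a b) →
    (∀ y ∈ S, ∑ k ∈ Icc ks (ks + L), (mm δ (P k) y (ρ * (D / 2 ^ k)) : ℝ) ≤ A) →
    cyc δ (τ.filter (fun x => decide (x ∈ S))) ≤ (4 * A / ρ + 4) * cyc δ σ

/-- [MN] Main theorem, in terms of `HasRatio`.  `D` = diameter, `L = Nat.clog 2 n`, `Ks` = the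
levels of the distances (`D / 2 ^ k ≤ δ x y < 2 D / 2 ^ k`, at most `n ^ 2`), `T` large
(`D / 2 ^ T` smaller than all distances, `T ≥ ks` for all `ks ∈ Ks`), `ρ = 1 / (65536 d)`;
`S_HP`, `S_TO`, `S_CO`.  `(4/3) ^ s ≤ n ^ 3 (5/3) ^ (L + 1)` gives `s ≤ C log n`. -/
def S_MN : Prop :=
  ∃ C : ℝ, 0 < C ∧ ∀ (X : Type) [Fintype X] [DecidableEq X] (δ : X → X → ℝ), IsMet δ →
    ∀ d : ℕ, 1 ≤ d → Doubling δ (2 ^ d) → 2 ≤ Fintype.card X →
    ∃ τ : List X, IsOrd (univ : Finset X) τ ∧ HasRatio δ (C * d * Real.log (Fintype.card X)) τ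

/-- [RT] From `HasRatio` to `ratio` (`opt > 0`, `le_csInf`). -/
def S_RT : Prop :=
  ∀ (X : Type) [Fintype X] [DecidableEq X] (δ : X → X → ℝ), IsMet δ → ∀ (κ : ℝ) (τ : List X),
    0 ≤ κ → HasRatio δ κ τ → ratio δ τ ≤ ENNReal.ofReal κ

end Pool.Agent.UTSP.DT
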